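import Pool.Agent.Lib.MP_04dca5_al.Cut.Defs

/-!
# JOB Num: exponents

`ex p r g` is the least `a` such that `g ^ p ^ a` fixes all classes of `r`.
PROOF.
`ex_spec`: the set is nonempty by `h.pg` (`Nat.sInf_mem`).
`ex_le`: `Nat.sInf_le`.
`not_of_lt`: `Nat.notMem_of_lt_sInf`.
`ex_drop`: let `a = ex p s g`. `a ≠ 0` since `¬ s x (g x)`. So there is `y` with `¬ s y (g' y)`,
`g' = g ^ p ^ (a-1)` (`not_of_lt`). `Deep` gives `n : ℤ` and `z` with `s y ((g' ^ n) y)`, `s y z` and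
`¬ r z ((g' ^ n) z)`. `g' ^ p = g ^ p ^ a` fixes all classes of `s`. If `p` does not divide `n` then
`u n + v p = 1` for some integers, and `g' = (g' ^ n) ^ u * (g' ^ p) ^ v` fixes the class of `y` (the set of
`k ∈ G` with `s y (k y)` is a subgroup): contradiction. So `n = p m` and `g' ^ n = (g ^ p ^ a) ^ m`. If
`ex p r g ≤ a` then `g ^ p ^ a`, being a power of `g ^ p ^ (ex p r g)`, fixes all classes of `r`, and so does
its `m`-th power: contradiction with `¬ r z ((g' ^ n) z)`.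
`ex_chain`: if `Deep G (r i) (r (i+1))` for all `i` and `g` moves an `r j`-class, then for `i < j` `g`
moves an `r (i+1)`-class as `r (i+1) ≤ r j`, so `ex p (r (i+1)) g + 1 ≤ ex p (r i) g`; sum up.
-/

set_option autoImplicit false

namespace Pool.Agent.Lib.MP_04dca5_al.Cut

open Equiv Subgroup

/-- The least `a` such that `g ^ p ^ a` fixes all classes of `r`. -/
noncomputable def ex {Ω : Type} (p : ℕ) (r : Setoid Ω) (g : Perm Ω) : ℕ :=
  sInf {a | ∀ x, r x ((g ^ p ^ a) x)}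

theorem ex_spec {Ω : Type} {p : ℕ} {G : Subgroup (Perm Ω)} (h : Hyp p G) (r : Setoid Ω) {g : Perm Ω}
    (hg : g ∈ G) (x : Ω) : r x ((g ^ p ^ ex p r g) x) := by
  have h1 : {a | ∀ x, r x ((g ^ p ^ a) x)}.Nonempty := by
    obtain ⟨k, hk⟩ := h.pg g hg
    refine ⟨k, fun x => ?_⟩
    rw [hk]
    exact r.refl x
  exact Nat.sInf_mem h1 x

/-- the elements of `G` fixing the class of `y` -/
private def Num_K {Ω : Type} {G : Subgroup (Perm Ω)} {s : Setoid Ω} (hs : Good G s) (y : Ω) :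
    Subgroup (Perm Ω) where
  carrier := {k | k ∈ G ∧ s y (k y)}
  mul_mem' := by
    rintro a b ⟨ha, ha'⟩ ⟨hb, hb'⟩
    refine ⟨G.mul_mem ha hb, ?_⟩
    show s y (a (b y))
    exact s.trans ha' (hs.inv a ha _ _ hb')
  one_mem' := ⟨G.one_mem, s.refl y⟩
  inv_mem' := by
    rintro a ⟨ha, ha'⟩
    refine ⟨G.inv_mem ha, ?_⟩
    have h1 := hs.inv a⁻¹ (G.inv_mem ha) _ _ ha'
    rw [show a⁻¹ (a y) = y by simp] at h1
    exact s.symm h1

/-- the elements of `G` fixing all classes -/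
private def Num_F {Ω : Type} {G : Subgroup (Perm Ω)} {s : Setoid Ω} (hs : Good G s) :
    Subgroup (Perm Ω) where
  carrier := {k | k ∈ G ∧ ∀ y, s y (k y)}
  mul_mem' := by
    rintro a b ⟨ha, ha'⟩ ⟨hb, hb'⟩
    refine ⟨G.mul_mem ha hb, fun y => ?_⟩
    show s y (a (b y))
    exact s.trans (ha' y) (hs.inv a ha _ _ (hb' y))
  one_mem' := ⟨G.one_mem, fun y => s.refl y⟩
  inv_mem' := by
    rintro a ⟨ha, ha'⟩
    refine ⟨G.inv_mem ha, fun y => ?_⟩
    have h1 := hs.inv a⁻¹ (G.inv_mem ha) _ _ (ha' y)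
    rw [show a⁻¹ (a y) = y by simp] at h1
    exact s.symm h1

theorem ex_drop {Ω : Type} {p : ℕ} {G : Subgroup (Perm Ω)} (h : Hyp p G) {r s : Setoid Ω}
    (hr : Good G r) (hs : Good G s) (hd : Deep G r s) {g : Perm Ω} (hg : g ∈ G) {x : Ω}
    (hx : ¬ s x (g x)) : ex p s g + 1 ≤ ex p r g := by
  have ha0 : ex p s g ≠ 0 := by
    intro h0
    have h1 := ex_spec h s hg x
    rw [h0, pow_zero, pow_one] at h1
    exact hx h1
  obtain ⟨b, hb⟩ := Nat.exists_eq_succ_of_ne_zero ha0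
  have hlt : b < sInf {a | ∀ x, s x ((g ^ p ^ a) x)} := by
    change b < ex p s g
    omega
  have hnot := Nat.notMem_of_lt_sInf hlt
  have hnot' : ¬ ∀ y, s y ((g ^ p ^ b) y) := hnot
  push Not at hnot'
  obtain ⟨y, hy⟩ := hnot'
  have hg' : g ^ p ^ b ∈ G := G.pow_mem hg _
  obtain ⟨n, hn, z, hz, hz'⟩ := hd (g ^ p ^ b) hg' y hy
  have hpow : (g ^ p ^ b) ^ p = g ^ p ^ ex p s g := by
    rw [hb, ← pow_mul, ← pow_succ]
  have hK1 : (g ^ p ^ b) ^ n ∈ Num_K hs y := ⟨G.zpow_mem hg' n, hn⟩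
  have hK2 : (g ^ p ^ b) ^ p ∈ Num_K hs y := by
    rw [hpow]
    exact ⟨G.pow_mem hg _, ex_spec h s hg y⟩
  have hdvd : (p : ℤ) ∣ n := by
    by_contra hnd
    have hcop : IsCoprime (p : ℤ) n :=
      ((Nat.prime_iff_prime_int.mp h.prime).coprime_iff_not_dvd).mpr hnd
    obtain ⟨u, v, huv⟩ := hcop
    have h1 : g ^ p ^ b = ((g ^ p ^ b) ^ p) ^ u * ((g ^ p ^ b) ^ n) ^ v := by
      rw [← zpow_natCast (g ^ p ^ b) p, ← zpow_mul, ← zpow_mul, ← zpow_add, mul_comm (p : ℤ) u,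
        mul_comm n v, huv, zpow_one]
    have h2 : g ^ p ^ b ∈ Num_K hs y := by
      rw [h1]
      exact (Num_K hs y).mul_mem ((Num_K hs y).zpow_mem hK2 u) ((Num_K hs y).zpow_mem hK1 v)
    exact hy h2.2
  obtain ⟨m, hm⟩ := hdvd
  by_contra hcon
  have hle : ex p r g ≤ ex p s g := by omega
  have hF : g ^ p ^ ex p r g ∈ Num_F hr := ⟨G.pow_mem hg _, ex_spec h r hg⟩
  have hF2 : g ^ p ^ ex p s g ∈ Num_F hr := by
    have h1 : g ^ p ^ ex p s g = (g ^ p ^ ex p r g) ^ p ^ (ex p s g - ex p r g) := by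
      rw [← pow_mul, ← pow_add, Nat.add_sub_cancel' hle]
    rw [h1]
    exact (Num_F hr).pow_mem hF _
  have hF3 : (g ^ p ^ b) ^ n ∈ Num_F hr := by
    rw [hm, zpow_mul, zpow_natCast, hpow]
    exact (Num_F hr).zpow_mem hF2 m
  exact hz' (hF3.2 z)

theorem ex_chain {Ω : Type} {p : ℕ} {G : Subgroup (Perm Ω)} (h : Hyp p G) (r : ℕ → Setoid Ω)
    (hr : ∀ i, Good G (r i)) (hmono : Monotone r) (hd : ∀ i, Deep G (r i) (r (i + 1))) {g : Perm Ω}
    (hg : g ∈ G) {x : Ω} {j : ℕ} (hx : ¬ r j x (g x)) (i : ℕ) (hi : i ≤ j) :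
    ex p (r i) g + i ≤ ex p (r 0) g := by
  induction i with
  | zero => exact le_rfl
  | succ i ih =>
    have h1 := ih (by omega)
    have h2 := ex_drop h (hr i) (hr (i + 1)) (hd i) hg (x := x) (fun h3 => hx (hmono hi h3))
    omega

/-- If `r` is equality, the power of `g` just before `1` moves a point. -/
theorem ex_bot {Ω : Type} {p : ℕ} (g : Perm Ω) (a : ℕ) (ha : a < ex p ⊥ g) :
    ∃ x, (g ^ p ^ a) x ≠ x := by
  have h1 := Nat.notMem_of_lt_sInf ha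
  by_contra hcon
  push Not at hcon
  exact h1 fun x => (show x = (g ^ p ^ a) x from (hcon x).symm)

/-- Conjugation does not change the exponent. -/
theorem ex_conj {Ω : Type} {p : ℕ} {G : Subgroup (Perm Ω)} {r : Setoid Ω} (hr : Good G r)
    (g h : Perm Ω) (hh : h ∈ G) : ex p r (h⁻¹ * g * h) = ex p r g := by
  unfold ex
  congr 1
  ext a
  have h1 : (h⁻¹ * g * h) ^ p ^ a = h⁻¹ * g ^ p ^ a * h := by
    have h2 := conj_pow (a := h⁻¹) (b := g) (i := p ^ a)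
    rwa [inv_inv] at h2
  have h3 : ∀ x, (r x (((h⁻¹ * g * h) ^ p ^ a) x) ↔ r (h x) ((g ^ p ^ a) (h x))) := by
    intro x
    rw [h1, ← hr.inv_iff hh]
    simp [Equiv.Perm.mul_apply]
  constructor
  · intro h4 y
    have h5 := (h3 (h⁻¹ y)).mp (h4 (h⁻¹ y))
    simpa using h5
  · intro h4 x
    exact (h3 x).mpr (h4 (h x))

end Pool.Agent.Lib.MP_04dca5_al.Cut
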