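import Pool.Agent.Lib.MP_04dca5_al.Cut.Deep
import Pool.Agent.Lib.MP_04dca5_al.Cut.Num

/-!
# JOB Chain: the chain of congruences and the elements `g j`

PROOF.
`chain`: for a good `r` take `t` from `hcut`, `s₀` from `exists_deep` and let `r'` be good with
`t ≤ r'`, `s₀ ≤ r'` (`exists_join`); then `Deep G r r'`. `choose` functions and define `R 0 = ⊥`,
`R (i+1) = r' (R i)` (recursion in the subtype of the good relations, or `choose!` and an induction which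
shows that all `R i` are good).
`elements`: the class of `α` under `r j` is finite and `Ω` is infinite, so there are `y` with
`¬ r j α y` and `g ∈ G` with `g α = y`. `g ≠ 1`, so `ex p ⊥ g > 0` (if it is `0` then `g` fixes all
points by `ex_spec`). By `ex_bot` there is `x` with `(g ^ p ^ (ex p ⊥ g - 1)) x ≠ x`. Take `h ∈ G` with
`h α = x` and `g' = h⁻¹ g h`; use `ex_conj`; `g'` moves the `r j`-class of `h⁻¹ α`.
-/

set_option autoImplicit false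

namespace Pool.Agent.Lib.MP_04dca5_al.Cut

open Equiv Subgroup

private theorem Chain_step {Ω : Type} {p : ℕ} {G : Subgroup (Perm Ω)} (h : Hyp p G) (e : ℕ)
    (hcut : ∀ r, Good G r → ∃ s, Good G s ∧ r ≤ s ∧ Cuts p e G r s) (r : {r : Setoid Ω // Good G r}) :
    ∃ t r' : {r : Setoid Ω // Good G r}, r.1 ≤ t.1 ∧ t.1 ≤ r'.1 ∧ Deep G r.1 r'.1 ∧ Cuts p e G r.1 t.1 := by
  obtain ⟨t, ht, hrt, hct⟩ := hcut r.1 r.2
  obtain ⟨s₀, hs₀, -, hd⟩ := exists_deep h r.2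
  obtain ⟨r', hr', h1, h2⟩ := exists_join h ht hs₀
  exact ⟨⟨t, ht⟩, ⟨r', hr'⟩, hrt, h1, hd r' hr' h2, hct⟩

theorem chain {Ω : Type} {p : ℕ} {G : Subgroup (Perm Ω)} (h : Hyp p G) (e : ℕ)
    (hcut : ∀ r, Good G r → ∃ s, Good G s ∧ r ≤ s ∧ Cuts p e G r s) :
    ∃ r t : ℕ → Setoid Ω, r 0 = ⊥ ∧ (∀ i, Good G (r i)) ∧ (∀ i, Good G (t i)) ∧ (∀ i, r i ≤ t i) ∧
      (∀ i, t i ≤ r (i + 1)) ∧ (∀ i, Deep G (r i) (r (i + 1))) ∧ (∀ i, Cuts p e G (r i) (t i)) := by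
  choose T N h1 h2 h3 h4 using Chain_step h e hcut
  let R : ℕ → {r : Setoid Ω // Good G r} := fun n => Nat.rec ⟨⊥, good_bot G⟩ (fun _ r => N r) n
  exact ⟨fun i => (R i).1, fun i => (T (R i)).1, rfl, fun i => (R i).2, fun i => (T (R i)).2,
    fun i => h1 (R i), fun i => h2 (R i), fun i => h3 (R i), fun i => h4 (R i)⟩

theorem elements {Ω : Type} {p : ℕ} {G : Subgroup (Perm Ω)} (h : Hyp p G) (r : Setoid Ω)
    (hr : Good G r) (α : Ω) :
    ∃ g ∈ G, (∃ x, ¬ r x (g x)) ∧ 0 < ex p ⊥ g ∧ (g ^ p ^ (ex p ⊥ g - 1)) α ≠ α := by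
  have := h.inf
  obtain ⟨y, hy⟩ := (hr.fc α).exists_notMem
  obtain ⟨g, hg, hgy⟩ := h.tr α y
  have hga : ¬ r α (g α) := by
    rw [hgy]; exact hy
  have hpos : 0 < ex p ⊥ g := by
    by_contra hn
    have h0 : ex p ⊥ g = 0 := by omega
    have h1 := ex_spec h ⊥ hg α
    rw [h0, pow_zero, pow_one] at h1
    have h2 : α = g α := h1
    apply hga
    rw [← h2]
  obtain ⟨x, hx⟩ := ex_bot (p := p) g (ex p ⊥ g - 1) (by omega)
  obtain ⟨k, hk, hkx⟩ := h.tr α x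
  refine ⟨k⁻¹ * g * k, G.mul_mem (G.mul_mem (G.inv_mem hk) hg) hk, ⟨k⁻¹ α, ?_⟩, ?_, ?_⟩
  · have e1 : (k⁻¹ * g * k) (k⁻¹ α) = k⁻¹ (g α) := by simp
    rw [e1, hr.inv_iff (G.inv_mem hk)]
    exact hga
  · rw [ex_conj (good_bot G) g k hk]; exact hpos
  · rw [ex_conj (good_bot G) g k hk]
    have e2 : ∀ n : ℕ, (k⁻¹ * g * k) ^ n = k⁻¹ * g ^ n * k := by
      intro n
      have := conj_pow (a := k⁻¹) (b := g) (i := n)
      simpa using this
    rw [e2]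
    intro e3
    apply hx
    have e4 : k⁻¹ ((g ^ p ^ (ex p ⊥ g - 1)) (k α)) = α := e3
    rw [hkx] at e4
    have e5 : k (k⁻¹ ((g ^ p ^ (ex p ⊥ g - 1)) x)) = k α := by rw [e4]
    rw [hkx] at e5
    simpa using e5

end Pool.Agent.Lib.MP_04dca5_al.Cut
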