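import Pool.Agent.Lib.MP_04dca5_al.Cut.Sup

/-!
# JOB Cong: finite-class congruences are cofinal and directed

PROOF.
`exists_cong`: choose `g_x ∈ G` with `g_x α = x` for `x ∈ S`. `B = {g ∈ G | r α (g α)}` is a subgroup of
`G` (`r` is an equivalence relation and `G`-invariant), `B ≠ G` since the orbit of `α` under `B` is in the
finite class of `α` and the orbit under `G` is `Ω`. `M = B ⊔ closure {g_x | x ∈ S} ≤ G`, `M ≠ G` by
`sup_ne`. Define `s x y :⇔ ∃ g ∈ G, ∃ m ∈ M, g α = x ∧ g (m α) = y`. Reflexive: `m = 1`.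
Symmetric: `(g m, m⁻¹)`. Note (*): if `g, g' ∈ G`, `g' α = g (m α)` with `m ∈ M` then
`(g m)⁻¹ g'` fixes `α` so it is in `B ≤ M` and `g⁻¹ g' ∈ M`. Transitive: by (*)
`g' (m' α) = g ((g⁻¹ g' m') α)`. Invariant: `(h g, m)`. The class of `x = g α` is contained in
`{g (m α) | m ∈ M}` by (*), which is finite by `h.bt`. `r ≤ s`: if `r x y`, `x = g α`, `y = g (k α)` with
`g, k ∈ G` (transitivity) then `r α (k α)`, `k ∈ B`. `s α x` for `x ∈ S`: `g = 1`, `m = g_x`.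

`exists_join`: `exists_cong` for `r`, a point `α` and `S = {y | s α y}` gives `t ≥ r` with
`s α y → t α y`; then `s ≤ t` by transitivity and invariance.
-/

set_option autoImplicit false

namespace Pool.Agent.Lib.MP_04dca5_al.Cut

open Equiv Subgroup

private theorem cong_ia {Ω : Type} (g : Perm Ω) (x : Ω) : g⁻¹ (g x) = x := g.symm_apply_apply x

private theorem cong_ai {Ω : Type} (g : Perm Ω) (x : Ω) : g (g⁻¹ x) = x := g.apply_symm_apply x

private def cong_B {Ω : Type} {G : Subgroup (Perm Ω)} {r : Setoid Ω} (hr : Good G r) (α : Ω) :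
    Subgroup (Perm Ω) where
  carrier := {g | g ∈ G ∧ r α (g α)}
  mul_mem' := by
    rintro a b ⟨ha, ha'⟩ ⟨hb, hb'⟩
    exact ⟨G.mul_mem ha hb, r.trans ha' (hr.inv a ha _ _ hb')⟩
  one_mem' := ⟨G.one_mem, r.refl α⟩
  inv_mem' := by
    rintro a ⟨ha, ha'⟩
    refine ⟨G.inv_mem ha, ?_⟩
    have h1 := hr.inv a⁻¹ (G.inv_mem ha) _ _ ha'
    rw [cong_ia] at h1
    exact r.symm h1

private theorem cong_star {Ω : Type} {G M : Subgroup (Perm Ω)} {r : Setoid Ω} (hr : Good G r) (α : Ω)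
    (hMG : M ≤ G) (hBM : cong_B hr α ≤ M) {g g' m : Perm Ω} (hg : g ∈ G) (hg' : g' ∈ G) (hm : m ∈ M)
    (h : g' α = g (m α)) : g⁻¹ * g' ∈ M := by
  have h1 : (g * m)⁻¹ * g' ∈ cong_B hr α := by
    refine ⟨G.mul_mem (G.inv_mem (G.mul_mem hg (hMG hm))) hg', ?_⟩
    have h2 : ((g * m)⁻¹ * g') α = α := by
      rw [Perm.mul_apply, h, ← Perm.mul_apply g m, cong_ia]
    rw [h2]
  have h3 : g⁻¹ * g' = m * ((g * m)⁻¹ * g') := by group
  rw [h3]
  exact M.mul_mem hm (hBM h1)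

theorem exists_cong {Ω : Type} {p : ℕ} {G : Subgroup (Perm Ω)} (h : Hyp p G) {r : Setoid Ω}
    (hr : Good G r) (α : Ω) {S : Set Ω} (hS : S.Finite) :
    ∃ s : Setoid Ω, Good G s ∧ r ≤ s ∧ ∀ x ∈ S, s α x := by
  choose γ hγG hγ using h.tr α
  have hBG : cong_B hr α ≤ G := fun g hg => hg.1
  have hBne : cong_B hr α ≠ G := by
    intro he
    have h1 : {y | r α y} = Set.univ := by
      ext y
      refine ⟨fun _ => trivial, fun _ => ?_⟩
      have h2 : γ y ∈ cong_B hr α := by rw [he]; exact hγG y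
      have h3 := h2.2
      rw [hγ y] at h3
      exact h3
    have h4 := hr.fc α
    rw [h1] at h4
    have := h.inf
    exact Set.infinite_univ h4
  have hFG : ∀ g ∈ γ '' S, g ∈ G := by
    rintro g ⟨x, _, rfl⟩
    exact hγG x
  have hMne := sup_ne h (cong_B hr α) hBG hBne (γ '' S) (hS.image γ) hFG
  set M : Subgroup (Perm Ω) := cong_B hr α ⊔ closure (γ '' S) with hM
  have hMG : M ≤ G := sup_le hBG ((closure_le G).mpr hFG)
  have hBM : cong_B hr α ≤ M := le_sup_left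
  have hFM : ∀ x ∈ S, γ x ∈ M := fun x hx =>
    (le_sup_right : closure (γ '' S) ≤ M) (subset_closure ⟨x, hx, rfl⟩)
  have hstar : ∀ {g g' m : Perm Ω}, g ∈ G → g' ∈ G → m ∈ M → g' α = g (m α) → g⁻¹ * g' ∈ M :=
    fun hg hg' hm he => cong_star hr α hMG hBM hg hg' hm he
  let s : Setoid Ω := ⟨fun x y => ∃ g ∈ G, ∃ m ∈ M, g α = x ∧ g (m α) = y, by
    refine ⟨?_, ?_, ?_⟩
    · intro x
      exact ⟨γ x, hγG x, 1, M.one_mem, hγ x, hγ x⟩
    · rintro x y ⟨g, hg, m, hm, hx, hy⟩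
      refine ⟨g * m, G.mul_mem hg (hMG hm), m⁻¹, M.inv_mem hm, hy, ?_⟩
      rw [Perm.mul_apply, cong_ai]
      exact hx
    · rintro x y z ⟨g, hg, m, hm, hx, hy⟩ ⟨g', hg', m', hm', hx', hy'⟩
      refine ⟨g, hg, g⁻¹ * g' * m', M.mul_mem (hstar hg hg' hm (by rw [hx', hy])) hm', hx, ?_⟩
      rw [Perm.mul_apply, Perm.mul_apply, cong_ai]
      exact hy'⟩
  have hsdef : ∀ x y, s x y ↔ ∃ g ∈ G, ∃ m ∈ M, g α = x ∧ g (m α) = y := fun x y => Iff.rfl
  refine ⟨s, ⟨?_, ?_⟩, ?_, ?_⟩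
  · rintro k hk x y hxy
    rw [hsdef] at hxy ⊢
    obtain ⟨g, hg, m, hm, hx, hy⟩ := hxy
    refine ⟨k * g, G.mul_mem hk hg, m, hm, ?_, ?_⟩
    · rw [Perm.mul_apply, hx]
    · rw [Perm.mul_apply, hy]
  · intro x
    have hfin : {y | ∃ m ∈ M, m α = y}.Finite := h.bt M hMG hMne α
    refine (hfin.image (γ x)).subset ?_
    rintro y hxy
    rw [Set.mem_ofPred_eq, hsdef] at hxy
    obtain ⟨g, hg, m, hm, hx, hy⟩ := hxy
    have h1 : (γ x)⁻¹ * g ∈ M := hstar (hγG x) hg M.one_mem (by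
      rw [Perm.one_apply, hγ x]; exact hx)
    refine ⟨((γ x)⁻¹ * g * m) α, ⟨_, M.mul_mem h1 hm, rfl⟩, ?_⟩
    rw [Perm.mul_apply, Perm.mul_apply, cong_ai]
    exact hy
  · intro x y hxy
    rw [hsdef]
    refine ⟨γ x, hγG x, (γ x)⁻¹ * γ y, ?_, hγ x, ?_⟩
    · refine hBM ⟨G.mul_mem (G.inv_mem (hγG x)) (hγG y), ?_⟩
      have h1 := hr.inv (γ x)⁻¹ (G.inv_mem (hγG x)) _ _ hxy
      have h2 : (γ x)⁻¹ x = α := by
        rw [Perm.inv_eq_iff_eq]; exact (hγ x).symm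
      have h3 : ((γ x)⁻¹ * γ y) α = (γ x)⁻¹ y := by rw [Perm.mul_apply, hγ y]
      rw [h3]
      rw [h2] at h1
      exact h1
    · rw [Perm.mul_apply, cong_ai]
      exact hγ y
  · intro x hx
    rw [hsdef]
    exact ⟨1, G.one_mem, γ x, hFM x hx, rfl, hγ x⟩

theorem exists_join {Ω : Type} {p : ℕ} {G : Subgroup (Perm Ω)} (h : Hyp p G) {r s : Setoid Ω}
    (hr : Good G r) (hs : Good G s) : ∃ t : Setoid Ω, Good G t ∧ r ≤ t ∧ s ≤ t := by
  have := h.inf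
  obtain ⟨α⟩ : Nonempty Ω := inferInstance
  obtain ⟨t, ht, hrt, hS⟩ := exists_cong h hr α (hs.fc α)
  refine ⟨t, ht, hrt, ?_⟩
  intro x y hxy
  obtain ⟨g, hg, hx⟩ := h.tr α x
  subst hx
  have h1 : s α (g⁻¹ y) := by
    have h2 := hs.inv g⁻¹ (G.inv_mem hg) _ _ hxy
    rw [cong_ia] at h2
    exact h2
  have h3 := ht.inv g hg _ _ (hS _ h1)
  rw [cong_ai] at h3
  exact h3

end Pool.Agent.Lib.MP_04dca5_al.Cut
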