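import Pool.Agent.Lib.MP_04dca5_al.Cut.Key

/-!
# JOB Seq: the two applications of the key lemma to sequences

`seqA` (used for `Deep`): `S i` congruences, `r ≤ S i`, `S` increasing, `D i` = class of `α` under `S i`,
`g i ∈ G` supported in `D (i+1)` such that all powers of `g i` which fix `D i` act `r`-trivially on it.
PROOF of `seqA`. Claim A(i): if `x ∈ T i k := closure {g j | i ≤ j, j ≤ k}` and `x z ∈ D i` for some
`z ∈ D i` then `r z (x z)` for all `z ∈ D i`. Induction on `k + 1 - i`; for `i > k` the group is trivial.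
Let `i ≤ k`, `T i k = closure ({g i} ∪ T (i+1) k)` (or just `≤`). Let `D = D (i+1)` and
`P = {x ∈ G | (∀ z ∈ D, x z ∈ D) ∧ (∀ z ∈ D, x⁻¹ z ∈ D) ∧ ∃ n : ℤ, ∀ z ∈ D, r (x z) ((g i ^ n) z)}`, a
subgroup of `G`: note that `g i` maps `D` to `D` and so do all its powers (its support is inside `D`; or it
is in `G` and `D` is a class); product: `r (x (y z)) (x (g^m z))`
(invariance of `r` under `x`) and `r (x (g^m z)) (g^n (g^m z))`; inverse: `w = x⁻¹ z ∈ D`, `r z (g^n w)`,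
so `r (g^(-n) z) w`. The hypotheses of `key` with `A = T (i+1) k`, `c = g i`: an element `a ∈ A` with
`z ∈ D, a z ∈ D` maps the class `D` to itself and is `r`-trivial on it by A(i+1), so it is in `P` with
`n = 0`. So every `x ∈ T i k` with `z, x z ∈ D` for some `z` is in `P`; this is the second statement
`seqA2`. Now let `x ∈ T i k`, `z ∈ D i ⊆ D (i+1)`, `x z ∈ D i`. Then `x ∈ P`, `n` is as in `P`;
`r (x z) (g^n z)` and `r ≤ S i` give `g^n z ∈ D i`, so `g i ^ n` fixes the class `D i` and is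
`r`-trivial on it, hence so is `x`: A(i).

`seqB` (used in the main theorem): `t i` increasing congruences, `C i` = class of `α` under `t i`,
`g ∈ G`, `c i ∈ G` is equal to the `m i`-th power of `g` on `C i` and trivial outside `C i`. Claim: every
`x ∈ closure {c j | i ≤ j, j ≤ k}` with `x z ∈ C i` for some `z ∈ C i` is equal to a power of `g` on `C i`.
PROOF of `seqB`. Induction on `k + 1 - i` again, `key` with `D = C i`, `A = closure {c j | i+1 ≤ j, j ≤ k}`,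
`c = c i`, `P = {x ∈ G | (∀ z ∈ D, x z ∈ D) ∧ (∀ z ∈ D, x⁻¹ z ∈ D) ∧ ∃ n : ℤ, ∀ z ∈ D, x z = (g ^ n) z}`.
An element `a ∈ A` with `z ∈ C i, a z ∈ C i` (so these are in `C (i+1)`) is equal to a power of `g` on
`C (i+1) ⊇ C i` and maps the class `C i` to itself. (`i > k`: the group is trivial, `n = 0`.)
-/

set_option autoImplicit false

namespace Pool.Agent.Lib.MP_04dca5_al.Cut

open Equiv Subgroup

theorem seq_ia {Ω : Type} (c : Perm Ω) (x : Ω) : c⁻¹ (c x) = x := by simp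

theorem seq_ai {Ω : Type} (c : Perm Ω) (x : Ω) : c (c⁻¹ x) = x := by simp

theorem seq_maps {Ω : Type} {D : Set Ω} {c : Perm Ω} (h : ∀ x, x ∉ D → c x = x) (z : Ω)
    (hz : z ∈ D) : c z ∈ D := by
  by_contra hn
  have h1 := h _ hn
  have h2 : c z = z := c.injective h1
  rw [h2] at hn
  exact hn hz

theorem seq_inv {Ω : Type} {D : Set Ω} {c : Perm Ω} (h : ∀ x, x ∉ D → c x = x) (x : Ω)
    (hx : x ∉ D) : c⁻¹ x = x := by
  rw [Perm.inv_eq_iff_eq]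
  exact (h x hx).symm

theorem seq_zpow {Ω : Type} {D : Set Ω} {c : Perm Ω} (h : ∀ x, x ∉ D → c x = x) (n : ℤ) (x : Ω)
    (hx : x ∉ D) : (c ^ n) x = x :=
  Perm.zpow_apply_eq_self_of_apply_eq_self (h x hx) n

theorem seq_le {Ω : Type} (g : ℕ → Perm Ω) (i k : ℕ) :
    closure {y | ∃ j, i ≤ j ∧ j ≤ k ∧ y = g j} ≤
      closure ({g i} ∪ ((closure {y | ∃ j, i + 1 ≤ j ∧ j ≤ k ∧ y = g j} : Subgroup (Perm Ω)) :
        Set (Perm Ω))) := by
  rw [closure_le]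
  rintro y ⟨j, h1, h2, rfl⟩
  rcases Nat.eq_or_lt_of_le h1 with h3 | h3
  · exact subset_closure (Or.inl (by rw [h3]; rfl))
  · exact subset_closure (Or.inr (subset_closure ⟨j, h3, h2, rfl⟩))

theorem seq_bot {Ω : Type} (g : ℕ → Perm Ω) {i k : ℕ} (hik : k < i) {x : Perm Ω}
    (hx : x ∈ closure {y | ∃ j, i ≤ j ∧ j ≤ k ∧ y = g j}) : x = 1 := by
  have h1 : {y | ∃ j, i ≤ j ∧ j ≤ k ∧ y = g j} = (∅ : Set (Perm Ω)) := by
    ext y
    simp only [Set.mem_ofPred_eq, Set.mem_empty_iff_false, iff_false]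
    rintro ⟨j, h1, h2, -⟩
    omega
  rw [h1, Subgroup.closure_empty, mem_bot] at hx
  exact hx

/-- The class of `α` is mapped to itself by an element which maps one point of it into it. -/
theorem seq_cls {Ω : Type} {G : Subgroup (Perm Ω)} {t : Setoid Ω} (ht : Good G t) (α : Ω)
    {a : Perm Ω} (ha : a ∈ G) (hz : ∃ z, t α z ∧ t α (a z)) :
    (∀ z, t α z → t α (a z)) ∧ ∀ z, t α z → t α (a⁻¹ z) := by
  obtain ⟨z₀, h1, h2⟩ := hz
  constructor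
  · intro z hz
    have h3 : t (a z₀) (a z) := ht.inv a ha _ _ (t.trans' (t.symm' h1) hz)
    exact t.trans' h2 h3
  · intro z hz
    have h3 : t (a z₀) z := t.trans' (t.symm' h2) hz
    have h4 := ht.inv a⁻¹ (G.inv_mem ha) _ _ h3
    rw [seq_ia] at h4
    exact t.trans' h1 h4

/-- The auxiliary subgroup for `seqA`. -/
def seqP {Ω : Type} {G : Subgroup (Perm Ω)} {r : Setoid Ω} (hr : Good G r) (D : Set Ω)
    (g : Perm Ω) (hg : g ∈ G) (hD : ∀ x, x ∉ D → g x = x) : Subgroup (Perm Ω) where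
  carrier := {x | x ∈ G ∧ (∀ z ∈ D, x z ∈ D) ∧ (∀ z ∈ D, x⁻¹ z ∈ D) ∧
    ∃ n : ℤ, ∀ z ∈ D, r (x z) ((g ^ n) z)}
  one_mem' := by
    refine ⟨G.one_mem, fun z hz => hz, fun z hz => ?_, 0, fun z _ => ?_⟩
    · rw [inv_one]; exact hz
    · rw [zpow_zero]
  mul_mem' := by
    rintro x y ⟨hx1, hx2, hx3, n, hx4⟩ ⟨hy1, hy2, hy3, m, hy4⟩
    refine ⟨G.mul_mem hx1 hy1, fun z hz => hx2 _ (hy2 _ hz), fun z hz => ?_, n + m, fun z hz => ?_⟩
    · rw [mul_inv_rev]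
      exact hy3 _ (hx3 _ hz)
    · have h1 := hr.inv x hx1 _ _ (hy4 z hz)
      have h2 := hx4 _ (seq_maps (seq_zpow hD m) z hz)
      rw [zpow_add]
      exact r.trans' h1 h2
  inv_mem' := by
    rintro x ⟨hx1, hx2, hx3, n, hx4⟩
    refine ⟨G.inv_mem hx1, hx3, fun z hz => ?_, -n, fun z hz => ?_⟩
    · rw [inv_inv]; exact hx2 z hz
    · have h1 := hx4 _ (hx3 z hz)
      rw [seq_ai] at h1
      have h2 := hr.inv _ (G.inv_mem (G.zpow_mem hg n)) _ _ h1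
      rw [seq_ia] at h2
      rw [zpow_neg]
      exact r.symm' h2

theorem seqA_both {Ω : Type} {G : Subgroup (Perm Ω)} {r : Setoid Ω} (hr : Good G r)
    (S : ℕ → Setoid Ω)
    (hS : ∀ i, Good G (S i)) (hrS : ∀ i, r ≤ S i) (hmono : Monotone S) (α : Ω) (g : ℕ → Perm Ω)
    (hg : ∀ i, g i ∈ G) (hsupp : ∀ i x, ¬ S (i + 1) α x → g i x = x)
    (hpow : ∀ i, ∀ n : ℤ, S i α ((g i ^ n) α) → ∀ z, S i α z → r z ((g i ^ n) z)) (k d : ℕ) :
    ∀ i, k + 1 - i ≤ d →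
      (∀ x : Perm Ω, x ∈ closure {y | ∃ j, i ≤ j ∧ j ≤ k ∧ y = g j} →
        (∃ z, S i α z ∧ S i α (x z)) → ∀ z : Ω, S i α z → r z (x z)) ∧
      (∀ x : Perm Ω, x ∈ closure {y | ∃ j, i ≤ j ∧ j ≤ k ∧ y = g j} →
        (∃ z, S (i + 1) α z ∧ S (i + 1) α (x z)) →
        ∃ n : ℤ, ∀ z, S (i + 1) α z → r (x z) ((g i ^ n) z)) := by
  have htriv : ∀ i, k < i →
      (∀ x : Perm Ω, x ∈ closure {y | ∃ j, i ≤ j ∧ j ≤ k ∧ y = g j} →
        (∃ z, S i α z ∧ S i α (x z)) → ∀ z : Ω, S i α z → r z (x z)) ∧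
      (∀ x : Perm Ω, x ∈ closure {y | ∃ j, i ≤ j ∧ j ≤ k ∧ y = g j} →
        (∃ z, S (i + 1) α z ∧ S (i + 1) α (x z)) →
        ∃ n : ℤ, ∀ z, S (i + 1) α z → r (x z) ((g i ^ n) z)) := by
    intro i hik
    refine ⟨fun x hx _ z _ => ?_, fun x hx _ => ⟨0, fun z _ => ?_⟩⟩
    · rw [seq_bot g hik hx]; exact r.refl' _
    · rw [seq_bot g hik hx, zpow_zero]
  induction d with
  | zero =>
    intro i hi
    exact htriv i (by omega)
  | succ d ih =>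
    intro i hi
    by_cases hik : k < i
    · exact htriv i hik
    push Not at hik
    obtain ⟨hA, -⟩ := ih (i + 1) (by omega)
    have hTG : closure {y | ∃ j, i + 1 ≤ j ∧ j ≤ k ∧ y = g j} ≤ G := by
      rw [closure_le]
      rintro y ⟨j, -, -, rfl⟩
      exact hg j
    have hTG' : closure {y | ∃ j, i ≤ j ∧ j ≤ k ∧ y = g j} ≤ G := by
      rw [closure_le]
      rintro y ⟨j, -, -, rfl⟩
      exact hg j
    have h2 : ∀ x : Perm Ω, x ∈ closure {y | ∃ j, i ≤ j ∧ j ≤ k ∧ y = g j} →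
        (∃ z, S (i + 1) α z ∧ S (i + 1) α (x z)) →
        ∃ n : ℤ, ∀ z, S (i + 1) α z → r (x z) ((g i ^ n) z) := by
      intro x hx hz
      have hD : ∀ x, x ∉ {z | S (i + 1) α z} → g i x = x := fun x hx => hsupp i x hx
      have hk := key {z | S (i + 1) α z} G (closure {y | ∃ j, i + 1 ≤ j ∧ j ≤ k ∧ y = g j})
        (seqP hr {z | S (i + 1) α z} (g i) (hg i) hD) hTG (g i) (hg i) ?_ ?_ hD ?_ ?_ x
        (seq_le g i k hx) hz
      · exact hk.2.2.2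
      · rintro a ha ⟨z, hz1, hz2⟩
        obtain ⟨c1, c2⟩ := seq_cls (hS (i + 1)) α (hTG ha) ⟨z, hz1, hz2⟩
        refine ⟨hTG ha, c1, c2, 0, fun z' hz' => ?_⟩
        rw [zpow_zero]
        exact r.symm' (hA a ha ⟨z, hz1, hz2⟩ z' hz')
      · refine ⟨hg i, fun z hz => seq_maps hD z hz, fun z hz => seq_maps (seq_inv hD) z hz, 1,
          fun z _ => ?_⟩
        rw [zpow_one]
      · intro y hy hfix
        refine ⟨hy, fun z hz => ?_, fun z hz => ?_, 0, fun z hz => ?_⟩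
        · rw [hfix z hz]; exact hz
        · have : y⁻¹ z = z := by rw [Perm.inv_eq_iff_eq]; exact (hfix z hz).symm
          rw [this]; exact hz
        · rw [hfix z hz, zpow_zero]; exact r.refl' z
      · intro y hy
        exact hy.2.1
    refine ⟨?_, h2⟩
    rintro x hx ⟨z₀, hz1, hz2⟩ z hz
    have hle : S i ≤ S (i + 1) := hmono (Nat.le_succ i)
    obtain ⟨n, hn⟩ := h2 x hx ⟨z₀, hle hz1, hle hz2⟩
    have e1 : r (x z₀) ((g i ^ n) z₀) := hn z₀ (hle hz1)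
    have e2 : S i α ((g i ^ n) z₀) := (S i).trans' hz2 (hrS i e1)
    have e3 : S i ((g i ^ n) α) ((g i ^ n) z₀) :=
      (hS i).inv _ (G.zpow_mem (hg i) n) _ _ hz1
    have e4 : S i α ((g i ^ n) α) := (S i).trans' e2 ((S i).symm' e3)
    have e5 := hpow i n e4 z hz
    exact r.trans' e5 (r.symm' (hn z (hle hz)))

theorem seqA {Ω : Type} {G : Subgroup (Perm Ω)} {r : Setoid Ω} (hr : Good G r) (S : ℕ → Setoid Ω)
    (hS : ∀ i, Good G (S i)) (hrS : ∀ i, r ≤ S i) (hmono : Monotone S) (α : Ω) (g : ℕ → Perm Ω)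
    (hg : ∀ i, g i ∈ G) (hsupp : ∀ i x, ¬ S (i + 1) α x → g i x = x)
    (hpow : ∀ i, ∀ n : ℤ, S i α ((g i ^ n) α) → ∀ z, S i α z → r z ((g i ^ n) z)) (k i : ℕ)
    (x : Perm Ω) (hx : x ∈ closure {y | ∃ j, i ≤ j ∧ j ≤ k ∧ y = g j})
    (hz : ∃ z, S i α z ∧ S i α (x z)) (z : Ω) (hzz : S i α z) : r z (x z) :=
  (seqA_both hr S hS hrS hmono α g hg hsupp hpow k (k + 1 - i) i le_rfl).1 x hx hz z hzz

theorem seqA2 {Ω : Type} {G : Subgroup (Perm Ω)} {r : Setoid Ω} (hr : Good G r) (S : ℕ → Setoid Ω)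
    (hS : ∀ i, Good G (S i)) (hrS : ∀ i, r ≤ S i) (hmono : Monotone S) (α : Ω) (g : ℕ → Perm Ω)
    (hg : ∀ i, g i ∈ G) (hsupp : ∀ i x, ¬ S (i + 1) α x → g i x = x)
    (hpow : ∀ i, ∀ n : ℤ, S i α ((g i ^ n) α) → ∀ z, S i α z → r z ((g i ^ n) z)) (k i : ℕ)
    (x : Perm Ω) (hx : x ∈ closure {y | ∃ j, i ≤ j ∧ j ≤ k ∧ y = g j})
    (hz : ∃ z, S (i + 1) α z ∧ S (i + 1) α (x z)) :
    ∃ n : ℤ, ∀ z, S (i + 1) α z → r (x z) ((g i ^ n) z) :=
  (seqA_both hr S hS hrS hmono α g hg hsupp hpow k (k + 1 - i) i le_rfl).2 x hx hz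

/-- The auxiliary subgroup for `seqB`. -/
def seqQ {Ω : Type} (G : Subgroup (Perm Ω)) (D : Set Ω) (g : Perm Ω) : Subgroup (Perm Ω) where
  carrier := {x | x ∈ G ∧ (∀ z ∈ D, x z ∈ D) ∧ (∀ z ∈ D, x⁻¹ z ∈ D) ∧
    ∃ n : ℤ, ∀ z ∈ D, x z = (g ^ n) z}
  one_mem' := by
    refine ⟨G.one_mem, fun z hz => hz, fun z hz => ?_, 0, fun z _ => ?_⟩
    · rw [inv_one]; exact hz
    · rw [zpow_zero]
  mul_mem' := by
    rintro x y ⟨hx1, hx2, hx3, n, hx4⟩ ⟨hy1, hy2, hy3, m, hy4⟩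
    refine ⟨G.mul_mem hx1 hy1, fun z hz => hx2 _ (hy2 _ hz), fun z hz => ?_, n + m, fun z hz => ?_⟩
    · rw [mul_inv_rev]
      exact hy3 _ (hx3 _ hz)
    · rw [Perm.mul_apply, hx4 _ (hy2 z hz), hy4 z hz, zpow_add, Perm.mul_apply]
  inv_mem' := by
    rintro x ⟨hx1, hx2, hx3, n, hx4⟩
    refine ⟨G.inv_mem hx1, hx3, fun z hz => ?_, -n, fun z hz => ?_⟩
    · rw [inv_inv]; exact hx2 z hz
    · have h1 := hx4 _ (hx3 z hz)
      rw [seq_ai] at h1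
      rw [zpow_neg, Perm.eq_inv_iff_eq]
      exact h1.symm

theorem seqB_all {Ω : Type} {G : Subgroup (Perm Ω)} (t : ℕ → Setoid Ω) (ht : ∀ i, Good G (t i))
    (hmono : Monotone t) (α : Ω) (g : Perm Ω) (k : ℕ) (c : ℕ → Perm Ω) (m : ℕ → ℕ)
    (hc : ∀ i, i ≤ k → c i ∈ G) (hc1 : ∀ i, i ≤ k → ∀ x, t i α x → c i x = (g ^ m i) x)
    (hc2 : ∀ i, i ≤ k → ∀ x, ¬ t i α x → c i x = x) (d : ℕ) :
    ∀ i, k + 1 - i ≤ d → ∀ x : Perm Ω, x ∈ closure {y | ∃ j, i ≤ j ∧ j ≤ k ∧ y = c j} →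
      (∃ z, t i α z ∧ t i α (x z)) → ∃ n : ℤ, ∀ z, t i α z → x z = (g ^ n) z := by
  have htriv : ∀ i, k < i → ∀ x : Perm Ω, x ∈ closure {y | ∃ j, i ≤ j ∧ j ≤ k ∧ y = c j} →
      (∃ z, t i α z ∧ t i α (x z)) → ∃ n : ℤ, ∀ z, t i α z → x z = (g ^ n) z := by
    intro i hik x hx _
    refine ⟨0, fun z _ => ?_⟩
    rw [seq_bot c hik hx, zpow_zero]
  induction d with
  | zero =>
    intro i hi
    exact htriv i (by omega)
  | succ d ih =>
    intro i hi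
    by_cases hik : k < i
    · exact htriv i hik
    push Not at hik
    have hA := ih (i + 1) (by omega)
    have hTG : closure {y | ∃ j, i + 1 ≤ j ∧ j ≤ k ∧ y = c j} ≤ G := by
      rw [closure_le]
      rintro y ⟨j, -, hj, rfl⟩
      exact hc j hj
    intro x hx hz
    have hD : ∀ x, x ∉ {z | t i α z} → c i x = x := fun x hx => hc2 i hik x hx
    have hle : t i ≤ t (i + 1) := hmono (Nat.le_succ i)
    have hk := key {z | t i α z} G (closure {y | ∃ j, i + 1 ≤ j ∧ j ≤ k ∧ y = c j})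
      (seqQ G {z | t i α z} g) hTG (c i) (hc i hik) ?_ ?_ hD ?_ ?_ x (seq_le c i k hx) hz
    · exact hk.2.2.2
    · rintro a ha ⟨z, hz1, hz2⟩
      obtain ⟨c1, c2⟩ := seq_cls (ht i) α (hTG ha) ⟨z, hz1, hz2⟩
      obtain ⟨n, hn⟩ := hA a ha ⟨z, hle hz1, hle hz2⟩
      exact ⟨hTG ha, c1, c2, n, fun z' hz' => hn z' (hle hz')⟩
    · refine ⟨hc i hik, fun z hz => seq_maps hD z hz, fun z hz => seq_maps (seq_inv hD) z hz,
        (m i : ℤ), fun z hz => ?_⟩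
      rw [zpow_natCast]
      exact hc1 i hik z hz
    · intro y hy hfix
      refine ⟨hy, fun z hz => ?_, fun z hz => ?_, 0, fun z hz => ?_⟩
      · rw [hfix z hz]; exact hz
      · have : y⁻¹ z = z := by rw [Perm.inv_eq_iff_eq]; exact (hfix z hz).symm
        rw [this]; exact hz
      · rw [hfix z hz, zpow_zero]; rfl
    · intro y hy
      exact hy.2.1

theorem seqB {Ω : Type} {G : Subgroup (Perm Ω)} (t : ℕ → Setoid Ω) (ht : ∀ i, Good G (t i))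
    (hmono : Monotone t) (α : Ω) (g : Perm Ω) (hg : g ∈ G) (k : ℕ) (c : ℕ → Perm Ω) (m : ℕ → ℕ)
    (hc : ∀ i, i ≤ k → c i ∈ G) (hc1 : ∀ i, i ≤ k → ∀ x, t i α x → c i x = (g ^ m i) x)
    (hc2 : ∀ i, i ≤ k → ∀ x, ¬ t i α x → c i x = x) (i : ℕ)
    (x : Perm Ω) (hx : x ∈ closure {y | ∃ j, i ≤ j ∧ j ≤ k ∧ y = c j})
    (hz : ∃ z, t i α z ∧ t i α (x z)) : ∃ n : ℤ, ∀ z, t i α z → x z = (g ^ n) z :=
  seqB_all t ht hmono α g k c m hc hc1 hc2 (k + 1 - i) i le_rfl x hx hz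

end Pool.Agent.Lib.MP_04dca5_al.Cut
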