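import Pool.Agent.Lib.MP_04dca5_al.Cut.Cong
import Pool.Agent.Lib.MP_04dca5_al.Cut.Seq

/-!
# JOB Deep: for every congruence `r` there is a larger one `s₀` with `Deep G r s` for all `s ≥ s₀`

PROOF. Suppose not. Fix a point `α`. (F) For every good `t ≥ r` (take `t` itself as `s₀`) there are a good
`s ≥ t`, `g ∈ G` and `x` with `¬ s x (g x)` such that for every `n : ℤ` with `s x ((g ^ n) x)` all `z` with
`s x z` satisfy `r z ((g ^ n) z)`. Conjugating by `h ∈ G` with `h α = x` (`g' = h⁻¹ g h`) we may assume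
`x = α`. Moreover by `exists_cong` there is a good `t' ≥ s` such that the class of `α` under `t'` contains
the support of `g` (finite) and two points `y, z` with `g y = y` and `¬ r y z` (the support of `g` is finite
and `Ω` infinite; the `r`-class of `y` is finite). With `choose` get functions of `t` and define
`T 0 = r`, `T (i+1) = t' (T i)`, `S i = s (T i)`, `g i = g (T i)`: `S` is monotone, `r ≤ S i`, and all the
hypotheses of `seqA`, `seqA2` hold, and `y, z` for `i = 0` are in the class of `α` under `S 1`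
(`S 1 ≥ T 1 = t' (T 0)`). Let `H = closure {g i | i}`.
`H ≠ G`: otherwise there is `x ∈ H` with `x y = z`; `x ∈ closure {g j | 0 ≤ j, j ≤ k}` for some `k`
(directed union: use the auxiliary lemma `mem_closure_range_le` below, which you prove, too). By
`seqA2` with `i = 0` there is `n` with `r (x y) ((g 0 ^ n) y) = r z y`: contradiction.
`H ≤ G`. So by `h.bt` the orbit of `α` under `H` is finite. But the points `g i α` are in the class of `α`
under `S (i+1)` (support in the class; `g i` permutes the class) and not in the class under `S i`, so they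
are pairwise different for different `i`: infinitely many points in the orbit, contradiction.
-/

set_option autoImplicit false

namespace Pool.Agent.Lib.MP_04dca5_al.Cut

open Equiv Subgroup

theorem mem_closure_range_le {Γ : Type} [Group Γ] (g : ℕ → Γ) (i : ℕ) (x : Γ)
    (hx : x ∈ closure {y | ∃ j, i ≤ j ∧ y = g j}) :
    ∃ k, ∀ k' ≥ k, x ∈ closure {y | ∃ j, i ≤ j ∧ j ≤ k' ∧ y = g j} := by
  induction hx using closure_induction with
  | mem y hy =>
    obtain ⟨j, hj, rfl⟩ := hy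
    exact ⟨j, fun k' hk' => subset_closure ⟨j, hj, hk', rfl⟩⟩
  | one => exact ⟨0, fun k' _ => one_mem _⟩
  | mul a b _ _ ha hb =>
    obtain ⟨k, hk⟩ := ha
    obtain ⟨l, hl⟩ := hb
    exact ⟨max k l, fun k' hk' => mul_mem (hk k' (le_trans (le_max_left _ _) hk'))
      (hl k' (le_trans (le_max_right _ _) hk'))⟩
  | inv a _ ha =>
    obtain ⟨k, hk⟩ := ha
    exact ⟨k, fun k' hk' => inv_mem (hk k' hk')⟩

theorem deep_step {Ω : Type} {p : ℕ} {G : Subgroup (Perm Ω)} (h : Hyp p G) {r : Setoid Ω}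
    (hr : Good G r)
    (hno : ¬ ∃ s₀ : Setoid Ω, Good G s₀ ∧ r ≤ s₀ ∧ ∀ s : Setoid Ω, Good G s → s₀ ≤ s → Deep G r s)
    (α : Ω) (t : Setoid Ω) (ht : Good G t) (hrt : r ≤ t) :
    ∃ (s t' : Setoid Ω) (g : Perm Ω), Good G s ∧ t ≤ s ∧ Good G t' ∧ s ≤ t' ∧ g ∈ G ∧
      ¬ s α (g α) ∧ (∀ n : ℤ, s α ((g ^ n) α) → ∀ z, s α z → r z ((g ^ n) z)) ∧
      (∀ x, g x ≠ x → t' α x) ∧ ∃ y z, t' α y ∧ t' α z ∧ g y = y ∧ ¬ r y z := by
  have h1 : ¬ ∀ s : Setoid Ω, Good G s → t ≤ s → Deep G r s := fun h1 => hno ⟨t, ht, hrt, h1⟩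
  push Not at h1
  obtain ⟨s, hs, hts, hd⟩ := h1
  unfold Deep at hd
  push Not at hd
  obtain ⟨g, hg, x, hx, hn⟩ := hd
  obtain ⟨k, hk, hkx⟩ := h.tr α x
  have hconj : ∀ n : ℤ, (k⁻¹ * g * k) ^ n = k⁻¹ * g ^ n * k := by
    intro n
    have := conj_zpow (i := n) (a := k⁻¹) (b := g)
    rwa [inv_inv] at this
  have hgG : k⁻¹ * g * k ∈ G := G.mul_mem (G.mul_mem (G.inv_mem hk) hg) hk
  have hmv : ∀ (u : Setoid Ω), Good G u → ∀ (f : Perm Ω) (z : Ω),
      (u z ((k⁻¹ * f * k) z) ↔ u (k z) (f (k z))) := by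
    intro u hu f z
    rw [← hu.inv_iff hk z]
    show u (k z) (k (k⁻¹ (f (k z)))) ↔ _
    rw [seq_ai]
  have hfin : {x | (k⁻¹ * g * k) x ≠ x}.Finite := h.fin _ hgG
  haveI := h.inf
  obtain ⟨y, hy⟩ := hfin.exists_notMem
  have hy' : (k⁻¹ * g * k) y = y := by
    by_contra hne
    exact hy hne
  obtain ⟨z, hz⟩ := (hr.fc y).exists_notMem
  obtain ⟨t', ht', hst', hS⟩ := exists_cong h hs α
    ((hfin.union ((Set.finite_singleton y).union (Set.finite_singleton z))))
  refine ⟨s, t', k⁻¹ * g * k, hs, hts, ht', hst', hgG, ?_, ?_, ?_, y, z, ?_, ?_, hy', hz⟩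
  · rw [hmv s hs, hkx]
    exact hx
  · intro n hn' w hw
    rw [hconj n, hmv r hr]
    rw [hconj n, hmv s hs, hkx] at hn'
    refine hn n hn' (k w) ?_
    rw [← hkx]
    exact hs.inv k hk _ _ hw
  · intro w hw
    exact hS w (Or.inl hw)
  · exact hS y (Or.inr (Or.inl rfl))
  · exact hS z (Or.inr (Or.inr rfl))

theorem exists_deep {Ω : Type} {p : ℕ} {G : Subgroup (Perm Ω)} (h : Hyp p G) {r : Setoid Ω}
    (hr : Good G r) :
    ∃ s₀ : Setoid Ω, Good G s₀ ∧ r ≤ s₀ ∧ ∀ s : Setoid Ω, Good G s → s₀ ≤ s → Deep G r s := by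
  by_contra hno
  haveI := h.inf
  obtain ⟨α⟩ : Nonempty Ω := inferInstance
  have hF := fun t : {t : Setoid Ω // Good G t ∧ r ≤ t} => deep_step h hr hno α t.1 t.2.1 t.2.2
  choose s t' g hs hts ht' hst hg hnot hpow hsup hyz using hF
  let T : ℕ → {t : Setoid Ω // Good G t ∧ r ≤ t} := fun n =>
    Nat.rec ⟨r, hr, le_rfl⟩ (fun _ t => ⟨t' t, ht' t, (t.2.2.trans (hts t)).trans (hst t)⟩) n
  have hT1 : ∀ n, (T (n + 1)).1 = t' (T n) := fun n => rfl
  have hSmono : Monotone (fun n => s (T n)) := by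
    refine monotone_nat_of_le_succ fun n => ?_
    calc s (T n) ≤ t' (T n) := hst (T n)
      _ = (T (n + 1)).1 := (hT1 n).symm
      _ ≤ s (T (n + 1)) := hts (T (n + 1))
  have hle : ∀ n, t' (T n) ≤ s (T (n + 1)) := fun n => by
    rw [← hT1 n]
    exact hts (T (n + 1))
  have hS : ∀ i, Good G (s (T i)) := fun i => hs (T i)
  have hrS : ∀ i, r ≤ s (T i) := fun i => (T i).2.2.trans (hts (T i))
  have hgG : ∀ i, g (T i) ∈ G := fun i => hg (T i)
  have hsupp : ∀ i x, ¬ s (T (i + 1)) α x → g (T i) x = x := by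
    intro i x hx
    by_contra hne
    exact hx (hle i (hsup (T i) x hne))
  have hpw : ∀ i, ∀ n : ℤ, s (T i) α ((g (T i) ^ n) α) → ∀ z, s (T i) α z →
      r z ((g (T i) ^ n) z) := fun i => hpow (T i)
  have hHG : closure {y | ∃ j, 0 ≤ j ∧ y = g (T j)} ≤ G := by
    rw [closure_le]
    rintro y ⟨j, -, rfl⟩
    exact hgG j
  have hne : closure {y | ∃ j, 0 ≤ j ∧ y = g (T j)} ≠ G := by
    intro he
    obtain ⟨y, z, hy, hz, hgy, hryz⟩ := hyz (T 0)
    obtain ⟨x, hx, hxy⟩ := h.tr y z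
    rw [← he] at hx
    obtain ⟨k, hk⟩ := mem_closure_range_le (fun j => g (T j)) 0 x hx
    obtain ⟨n, hn⟩ := seqA2 hr (fun n => s (T n)) hS hrS hSmono α (fun j => g (T j)) hgG hsupp hpw
      k 0 x (hk k le_rfl) ⟨y, hle 0 hy, by rw [hxy]; exact hle 0 hz⟩
    have h1 := hn y (hle 0 hy)
    rw [hxy] at h1
    have h2 : (g (T 0) ^ n) y = y := Perm.zpow_apply_eq_self_of_apply_eq_self hgy n
    have h3 : r z ((g (T 0) ^ n) y) := h1
    rw [h2] at h3
    exact hryz (r.symm' h3)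
  have hfin := h.bt _ hHG hne α
  have hmem : ∀ i, g (T i) α ∈ {y | ∃ h ∈ closure {y | ∃ j, 0 ≤ j ∧ y = g (T j)}, h α = y} :=
    fun i => ⟨g (T i), subset_closure ⟨i, Nat.zero_le i, rfl⟩, rfl⟩
  have hin : ∀ i, s (T (i + 1)) α (g (T i) α) := fun i =>
    seq_maps (D := {x | s (T (i + 1)) α x}) (hsupp i) α ((s (T (i + 1))).refl' α)
  have hlt : ∀ i j, i < j → g (T i) α ≠ g (T j) α := by
    intro i j hij he
    have h1 : s (T j) α (g (T i) α) := hSmono (show i + 1 ≤ j from hij) (hin i)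
    rw [he] at h1
    exact hnot (T j) h1
  have hinj : Function.Injective (fun i => g (T i) α) := by
    intro i j he
    rcases lt_trichotomy i j with h1 | h1 | h1
    · exact absurd he (hlt i j h1)
    · exact h1
    · exact absurd he.symm (hlt j i h1)
  exact Set.infinite_of_injective_forall_mem hinj hmem hfin

end Pool.Agent.Lib.MP_04dca5_al.Cut
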