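import Mathlib

/-!
# MP_04dca5_al: definitions for the bounded cutting theorem
-/

set_option autoImplicit false

namespace Pool.Agent.Lib.MP_04dca5_al.Cut

open Equiv

/-- `r` is a `G`-invariant equivalence relation with finite classes. -/
structure Good {Ω : Type} (G : Subgroup (Perm Ω)) (r : Setoid Ω) : Prop where
  inv : ∀ g ∈ G, ∀ x y, r x y → r (g x) (g y)
  fc : ∀ x, {y | r x y}.Finite

/-- Standing hypotheses: `G` is a finitary barely transitive group of permutations of the infinite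
set `Ω`, all elements have `p`-power order. -/
structure Hyp {Ω : Type} (p : ℕ) (G : Subgroup (Perm Ω)) : Prop where
  inf : Infinite Ω
  prime : p.Prime
  fin : ∀ g ∈ G, {x | g x ≠ x}.Finite
  tr : ∀ x y, ∃ g ∈ G, g x = y
  pg : ∀ g ∈ G, ∃ k, g ^ p ^ k = 1
  bt : ∀ H ≤ G, H ≠ G → ∀ x, {y | ∃ h ∈ H, h x = y}.Finite

/-- Every element of `G` which moves the `s`-class of `x` has a power which fixes this class and
acts on it nontrivially modulo `r`. -/
def Deep {Ω : Type} (G : Subgroup (Perm Ω)) (r s : Setoid Ω) : Prop :=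
  ∀ g ∈ G, ∀ x, ¬ s x (g x) → ∃ n : ℤ, s x ((g ^ n) x) ∧ ∃ z, s x z ∧ ¬ r z ((g ^ n) z)

/-- The `p ^ e`-th powers of the elements of `G` which fix all classes of `r` can be cut off outside
each class of `t`. -/
def Cuts {Ω : Type} (p e : ℕ) (G : Subgroup (Perm Ω)) (r t : Setoid Ω) : Prop :=
  ∀ g ∈ G, (∀ x, r x (g x)) → ∀ a, ∃ c ∈ G, (∀ x, t a x → c x = (g ^ p ^ e) x) ∧
    (∀ x, ¬ t a x → c x = x)

theorem Good.inv_iff {Ω : Type} {G : Subgroup (Perm Ω)} {r : Setoid Ω} (h : Good G r) {g : Perm Ω}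
    (hg : g ∈ G) (x y : Ω) : r (g x) (g y) ↔ r x y := by
  refine ⟨fun h1 => ?_, h.inv g hg x y⟩
  have h2 := h.inv g⁻¹ (G.inv_mem hg) _ _ h1
  simpa using h2

theorem good_bot {Ω : Type} (G : Subgroup (Perm Ω)) : Good G ⊥ := by
  refine ⟨fun g _ x y h => ?_, fun x => ?_⟩
  · have h' : x = y := h
    rw [h']
  · have : {y | (⊥ : Setoid Ω) x y} = {x} := by
      ext y
      exact ⟨fun h => (show x = y from h).symm, fun h => (show x = y from h.symm)⟩
    rw [this]
    exact Set.finite_singleton x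

end Pool.Agent.Lib.MP_04dca5_al.Cut
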