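import Pool.Agent.Lib.MP_04dca5_al.Cut.Defs

/-!
# JOB Fin: finitely generated subgroups are finite; maximal subgroups of locally finite `p`-groups

PROOF.
`closure_finite`: let `S` be the union of the supports `{x | g x ≠ x}`, `g ∈ F`: finite. The set of the
permutations which fix every point outside `S` is finite
(`Equiv.Perm.subtypeEquivSubtypePerm (· ∈ S)` and `Perm S` is finite) and is (the carrier of) a subgroup
containing `F`.

`coatom_commutator`: by `Subgroup.commutator_le` (or the definition of `commutator Γ` as `⁅⊤,⊤⁆`) take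
`a b`, `x = ⁅a,b⁆` and suppose `x ∉ K`. As `K` is a coatom, `K ⊔ closure {x} = ⊤`, so `a` and `b` are in
`closure (K ∪ {x})`, hence there is a finite set `K₀ ⊆ K` with `a, b ∈ P := closure (K₀ ∪ {x})`
(`Subgroup.closure_induction` or `closure` is the directed union over finite subsets). `P` is a finite
`p`-group. `K.subgroupOf P ≠ ⊤` because `x ∈ P`, `x ∉ K`; as `P` is finite there is a coatom `L` of
`Subgroup P` with `K.subgroupOf P ≤ L` (`eq_top_or_exists_le_coatom`). `P` is nilpotent
(`IsPGroup.isNilpotent`), so `L` is normal (`NormalizerCondition.normal_of_coatom`,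
`normalizerCondition_of_isNilpotent`) and `P / L` is a simple nilpotent (solvable) group, hence
commutative, so `⁅a,b⁆ = x ∈ L` (or: `commutator P ≤ L`). So `L` contains `K₀` and `x`, i.e.
`L = ⊤`: contradiction.
-/

set_option autoImplicit false

namespace Pool.Agent.Lib.MP_04dca5_al.Cut

open Equiv Subgroup
open scoped commutatorElement

theorem closure_finite {Ω : Type} (F : Set (Perm Ω)) (hF : F.Finite)
    (h : ∀ g ∈ F, {x | g x ≠ x}.Finite) : ((closure F : Subgroup (Perm Ω)) : Set (Perm Ω)).Finite := by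
  classical
  set S : Set Ω := ⋃ g ∈ F, {x | g x ≠ x} with hS
  have hSf : S.Finite := Set.Finite.biUnion hF h
  have : Finite S := hSf.to_subtype
  have hle : (closure F : Subgroup (Perm Ω)) ≤
      (Equiv.Perm.ofSubtype (p := fun x => x ∈ S) : Perm {x // x ∈ S} →* Perm Ω).range := by
    rw [Subgroup.closure_le]
    intro g hg
    have hsub : ∀ x, g x ≠ x → x ∈ S := fun x hx => Set.mem_biUnion hg hx
    have h1 : ∀ x, g x ∈ S ↔ x ∈ S := by
      intro x
      by_cases hx : g x = x
      · rw [hx]
      · refine ⟨fun _ => hsub x hx, fun _ => hsub (g x) fun h2 => hx (g.injective h2)⟩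
    exact ⟨Equiv.Perm.subtypePerm g h1, Equiv.Perm.ofSubtype_subtypePerm h1 hsub⟩
  have hfin : (((Equiv.Perm.ofSubtype (p := fun x => x ∈ S) :
      Perm {x // x ∈ S} →* Perm Ω).range : Subgroup (Perm Ω)) : Set (Perm Ω)).Finite := by
    rw [MonoidHom.coe_range]
    exact Set.finite_range _
  exact hfin.subset hle

theorem coatom_commutator {Γ : Type} [Group Γ] (p : ℕ) (hp : p.Prime)
    (hpg : ∀ g : Γ, ∃ k, g ^ p ^ k = 1)
    (hfg : ∀ F : Set Γ, F.Finite → ((closure F : Subgroup Γ) : Set Γ).Finite)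
    (K : Subgroup Γ) (hK : IsCoatom K) : commutator Γ ≤ K := by
  have hfp : Fact p.Prime := ⟨hp⟩
  rw [commutator_def, Subgroup.commutator_le]
  intro a _ b _
  by_contra hx
  obtain ⟨x, hxd⟩ : ∃ x : Γ, x = ⁅a, b⁆ := ⟨_, rfl⟩
  rw [← hxd] at hx
  -- finitely many generators
  have hgen : ∀ g : Γ, ∃ K₀ : Set Γ, K₀.Finite ∧ K₀ ⊆ K ∧ g ∈ closure (K₀ ∪ {x}) := by
    intro g
    have h1 : (closure ((K : Set Γ) ∪ {x}) : Subgroup Γ) = ⊤ := by
      apply hK.2
      refine lt_of_le_of_ne ?_ ?_
      · intro y hy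
        exact subset_closure (Or.inl hy)
      · intro h2
        apply hx
        rw [h2]
        exact subset_closure (Or.inr rfl)
    have hg : g ∈ closure ((K : Set Γ) ∪ {x}) := by rw [h1]; exact mem_top g
    induction hg using Subgroup.closure_induction with
    | mem y hy =>
      rcases hy with hy | hy
      · exact ⟨{y}, Set.finite_singleton y, Set.singleton_subset_iff.2 hy,
          subset_closure (Or.inl rfl)⟩
      · exact ⟨∅, Set.finite_empty, Set.empty_subset _, subset_closure (Or.inr hy)⟩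
    | one => exact ⟨∅, Set.finite_empty, Set.empty_subset _, one_mem _⟩
    | mul y z _ _ hy hz =>
      obtain ⟨K₁, f1, s1, m1⟩ := hy
      obtain ⟨K₂, f2, s2, m2⟩ := hz
      refine ⟨K₁ ∪ K₂, f1.union f2, Set.union_subset s1 s2, mul_mem ?_ ?_⟩
      · exact closure_mono (Set.union_subset_union_left _ Set.subset_union_left) m1
      · exact closure_mono (Set.union_subset_union_left _ Set.subset_union_right) m2
    | inv y _ hy =>
      obtain ⟨K₁, f1, s1, m1⟩ := hy
      exact ⟨K₁, f1, s1, inv_mem m1⟩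
  obtain ⟨K₁, f1, s1, m1⟩ := hgen a
  obtain ⟨K₂, f2, s2, m2⟩ := hgen b
  set P : Subgroup Γ := closure ((K₁ ∪ K₂) ∪ {x}) with hPd
  have haP : a ∈ P := closure_mono (Set.union_subset_union_left _ Set.subset_union_left) m1
  have hbP : b ∈ P := closure_mono (Set.union_subset_union_left _ Set.subset_union_right) m2
  have hxP : x ∈ P := subset_closure (Or.inr rfl)
  have hPfin : Finite P := (hfg _ ((f1.union f2).union (Set.finite_singleton x))).to_subtype
  have hPp : IsPGroup p P := by
    intro g
    obtain ⟨k, hk⟩ := hpg (g : Γ)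
    exact ⟨k, Subtype.ext (by push_cast; exact hk)⟩
  have hnil : Group.IsNilpotent P := hPp.isNilpotent
  -- a coatom of `P`
  obtain ⟨L, hL, hKL⟩ : ∃ L : Subgroup P, IsCoatom L ∧ K.subgroupOf P ≤ L := by
    rcases eq_top_or_exists_le_coatom (K.subgroupOf P) with h1 | h1
    · exfalso
      have h2 : (⟨x, hxP⟩ : P) ∈ K.subgroupOf P := by rw [h1]; exact mem_top _
      exact hx (mem_subgroupOf.1 h2)
    · exact h1
  have hLn : L.Normal := NormalizerCondition.normal_of_coatom L Group.normalizerCondition_of_isNilpotent hL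
  have hnt : Nontrivial (P ⧸ L) := by
    rw [QuotientGroup.nontrivial_iff]
    exact hL.1
  have hsol : Group.IsSolvable (P ⧸ L) := inferInstance
  have hlt : commutator (P ⧸ L) < ⊤ := Group.IsSolvable.commutator_lt_top_of_nontrivial _
  have hLc : L = (commutator (P ⧸ L)).comap (QuotientGroup.mk' L) := by
    have h1 : L ≤ (commutator (P ⧸ L)).comap (QuotientGroup.mk' L) := by
      have h2 := Subgroup.ker_le_comap (QuotientGroup.mk' L) (commutator (P ⧸ L))
      rwa [QuotientGroup.ker_mk'] at h2
    rcases h1.eq_or_lt with h2 | h2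
    · exact h2
    · exfalso
      have h3 := hL.2 _ h2
      apply hlt.ne
      rw [eq_top_iff]
      intro y _
      obtain ⟨z, rfl⟩ := QuotientGroup.mk'_surjective L y
      have h4 : z ∈ (commutator (P ⧸ L)).comap (QuotientGroup.mk' L) := by rw [h3]; exact mem_top z
      exact h4
  have hxL : (⟨x, hxP⟩ : P) ∈ L := by
    rw [hLc, Subgroup.mem_comap]
    have h1 : (⟨x, hxP⟩ : P) = ⁅(⟨a, haP⟩ : P), (⟨b, hbP⟩ : P)⁆ := Subtype.ext hxd
    rw [h1, map_commutatorElement, commutator_def]
    exact commutator_mem_commutator (mem_top _) (mem_top _)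
  apply hL.1
  rw [eq_top_iff]
  have hPL : P ≤ L.map P.subtype := by
    refine (closure_le _).2 ?_
    rintro y (hy | hy)
    · have hyK : y ∈ K := by
        rcases hy with hy | hy
        · exact s1 hy
        · exact s2 hy
      have hyP : y ∈ P := subset_closure (Or.inl hy)
      exact ⟨⟨y, hyP⟩, hKL (mem_subgroupOf.2 hyK), rfl⟩
    · have hy' : y = x := hy
      rw [hy']
      exact ⟨⟨x, hxP⟩, hxL, rfl⟩
  rintro ⟨y, hy⟩ _
  obtain ⟨z, hz, hzy⟩ := hPL hy
  have h1 : (⟨y, hy⟩ : P) = z := Subtype.ext hzy.symm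
  rw [h1]
  exact hz

end Pool.Agent.Lib.MP_04dca5_al.Cut
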