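import Pool.Agent.Lib.MP_04dca5_al.Cut.Defs

/-!
# JOB Key: the key lemma on products

PROOF. Let `Q x :⇔ ∀ a ∈ A, ∃ a' ∈ A, a'⁻¹ * x * a ∈ P`.
(1) `Q b` for `b ∈ A`: `a' = b a`, and `1 ∈ P`.
(2) `Q c`: if there is `z ∈ D` with `a z ∈ D` then `a ∈ P` by `hA`, take `a' = 1`. Otherwise take
`a' = a`: `a⁻¹ c a` fixes every `z ∈ D` since `a z ∉ D`; use `hP1`.
(3) `Q c⁻¹`: the same with `c⁻¹` (it also fixes all points outside `D`, and is in `P`).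
(4) `Q (x y)` from `Q x`, `Q y`: `a''⁻¹ x y a = (a''⁻¹ x a') (a'⁻¹ y a)`.
Hence `Q x` for all `x ∈ closure ({c} ∪ A)`: prove `Q x ∧ Q x⁻¹` by `Subgroup.closure_induction`
(all elements are in `G`).
Now let `z ∈ D`, `x z ∈ D`. By `Q x` with `a = 1` there is `a' ∈ A` with `a'⁻¹ x ∈ P`. So
`a'⁻¹ (x z) ∈ D` by `hP2`, and `x z ∈ D`; by `hA` (for `a'⁻¹ ∈ A` and the point `x z`) `a'⁻¹ ∈ P`. So
`x = a' (a'⁻¹ x) ∈ P`.
-/

set_option autoImplicit false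

namespace Pool.Agent.Lib.MP_04dca5_al.Cut

open Equiv Subgroup

theorem key {Ω : Type} (D : Set Ω) (G A P : Subgroup (Perm Ω)) (hAG : A ≤ G) (c : Perm Ω)
    (hcG : c ∈ G) (hA : ∀ a ∈ A, (∃ z ∈ D, a z ∈ D) → a ∈ P) (hc : c ∈ P)
    (hcD : ∀ x, x ∉ D → c x = x)
    (hP1 : ∀ x ∈ G, (∀ z ∈ D, x z = z) → x ∈ P) (hP2 : ∀ x ∈ P, ∀ z ∈ D, x z ∈ D)
    (x : Perm Ω) (hx : x ∈ closure ({c} ∪ (A : Set (Perm Ω)))) (hz : ∃ z ∈ D, x z ∈ D) : x ∈ P := by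
  have hstep : ∀ c : Perm Ω, c ∈ G → c ∈ P → (∀ x, x ∉ D → c x = x) →
      ∀ a ∈ A, ∃ a' ∈ A, a'⁻¹ * c * a ∈ P := by
    intro c hcG hc hcD a ha
    by_cases hz : ∃ z ∈ D, a z ∈ D
    · exact ⟨1, A.one_mem, by simpa using P.mul_mem hc (hA a ha hz)⟩
    · push Not at hz
      refine ⟨a, ha, hP1 _ (G.mul_mem (G.mul_mem (G.inv_mem (hAG ha)) hcG) (hAG ha)) ?_⟩
      intro z hzD
      rw [Perm.mul_apply, Perm.mul_apply, hcD _ (hz z hzD), Perm.inv_eq_iff_eq]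
  have hQ : ∀ x ∈ closure ({c} ∪ (A : Set (Perm Ω))), (∀ a ∈ A, ∃ a' ∈ A, a'⁻¹ * x * a ∈ P) ∧
      (∀ a ∈ A, ∃ a' ∈ A, a'⁻¹ * x⁻¹ * a ∈ P) := by
    intro x hx
    induction hx using closure_induction with
    | mem x hx =>
      rcases hx with hx | hx
      · rw [Set.mem_singleton_iff] at hx
        subst hx
        refine ⟨hstep x hcG hc hcD, hstep x⁻¹ (G.inv_mem hcG) (P.inv_mem hc) ?_⟩
        intro y hy
        rw [Perm.inv_eq_iff_eq, hcD y hy]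
      · have hxA : x ∈ A := hx
        refine ⟨fun a ha => ⟨x * a, A.mul_mem hxA ha, ?_⟩,
          fun a ha => ⟨x⁻¹ * a, A.mul_mem (A.inv_mem hxA) ha, ?_⟩⟩
        · have : (x * a)⁻¹ * x * a = 1 := by group
          rw [this]; exact P.one_mem
        · have : (x⁻¹ * a)⁻¹ * x⁻¹ * a = 1 := by group
          rw [this]; exact P.one_mem
    | one =>
      refine ⟨fun a ha => ⟨a, ha, ?_⟩, fun a ha => ⟨a, ha, ?_⟩⟩
      · have : a⁻¹ * 1 * a = 1 := by group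
        rw [this]; exact P.one_mem
      · have : a⁻¹ * 1⁻¹ * a = 1 := by group
        rw [this]; exact P.one_mem
    | mul x y _ _ h1 h2 =>
      refine ⟨fun a ha => ?_, fun a ha => ?_⟩
      · obtain ⟨a', ha', h3⟩ := h2.1 a ha
        obtain ⟨a'', ha'', h4⟩ := h1.1 a' ha'
        refine ⟨a'', ha'', ?_⟩
        have : a''⁻¹ * (x * y) * a = (a''⁻¹ * x * a') * (a'⁻¹ * y * a) := by group
        rw [this]; exact P.mul_mem h4 h3
      · obtain ⟨a', ha', h3⟩ := h1.2 a ha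
        obtain ⟨a'', ha'', h4⟩ := h2.2 a' ha'
        refine ⟨a'', ha'', ?_⟩
        have : a''⁻¹ * (x * y)⁻¹ * a = (a''⁻¹ * y⁻¹ * a') * (a'⁻¹ * x⁻¹ * a) := by group
        rw [this]; exact P.mul_mem h4 h3
    | inv x _ h1 =>
      refine ⟨h1.2, ?_⟩
      rw [inv_inv]
      exact h1.1
  obtain ⟨a', ha', h1⟩ := (hQ x hx).1 1 A.one_mem
  rw [mul_one] at h1
  obtain ⟨z, hzD, hxz⟩ := hz
  have h2 : a'⁻¹ ∈ P := by
    refine hA a'⁻¹ (A.inv_mem ha') ⟨x z, hxz, ?_⟩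
    have := hP2 _ h1 z hzD
    rwa [Perm.mul_apply] at this
  have h3 : x = a' * (a'⁻¹ * x) := by group
  rw [h3]
  refine P.mul_mem ?_ h1
  simpa using P.inv_mem h2

end Pool.Agent.Lib.MP_04dca5_al.Cut
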