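import Pool.Agent.Lib.MP_04dca5_al.Cut.Defs

/-!
# Limits of cut elements, regular points
-/

set_option autoImplicit false

namespace Pool.Agent.Lib.MP_04dca5_al.Cut

open Equiv Subgroup

/-- The cycle of `a` under `g` is regular: a power of `g` which fixes `a` is trivial. -/
def Reg {Ω : Type} (g : Perm Ω) (a : Ω) : Prop := ∀ n : ℕ, (g ^ n) a = a → g ^ n = 1

/-- The permutation which is `g` on the `s`-class of `a` and the identity elsewhere is in `G`. -/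
def CutMem {Ω : Type} (G : Subgroup (Perm Ω)) (s : Setoid Ω) (g : Perm Ω) (a : Ω) : Prop :=
  ∃ c ∈ G, (∀ x, s a x → c x = g x) ∧ (∀ x, ¬ s a x → c x = x)

private theorem finite_supp' {Ω : Type} (q : Ω → Prop) (hq : {x | q x}.Finite) :
    {f : Perm Ω | ∀ x, ¬ q x → f x = x}.Finite := by
  classical
  have : Finite (Subtype q) := hq
  have : Finite { f : Perm Ω // ∀ a, ¬ q a → f a = a } :=
    Finite.of_equiv _ (Perm.subtypeEquivSubtypePerm q)
  exact this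

theorem limit2 {Ω : Type} {G : Subgroup (Perm Ω)} (t : ℕ → Setoid Ω) (ht : ∀ i, Good G (t i))
    (α : Ω) (c : ℕ → ℕ → Perm Ω) (hc : ∀ i j, i ≤ j → c i j ∈ G)
    (hc2 : ∀ i j, i ≤ j → ∀ x, ¬ t i α x → c i j x = x) :
    ∃ d : ℕ → Perm Ω, (∀ i, d i ∈ G) ∧ (∀ i x, ¬ t i α x → d i x = x) ∧
      ∀ k, ∃ j ≥ k, ∀ i ≤ k, c i j = d i := by
  have hge : ∀ k : ℕ, ∀ᶠ j in (Filter.hyperfilter ℕ : Filter ℕ), k ≤ j := fun k =>
    Nat.hyperfilter_le_atTop (Filter.eventually_ge_atTop k)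
  have hlim : ∀ i, ∃ d ∈ {f : Perm Ω | ∀ x, ¬ t i α x → f x = x},
      ∀ᶠ j in (Filter.hyperfilter ℕ : Filter ℕ), c i j = d := by
    intro i
    refine (Ultrafilter.eventually_exists_mem_iff (finite_supp' (t i α) ((ht i).fc α))).1 ?_
    filter_upwards [hge i] with j hj
    exact ⟨c i j, hc2 i j hj, rfl⟩
  choose d hd hdl using hlim
  refine ⟨d, fun i => ?_, hd, fun k => ?_⟩
  · obtain ⟨j, hj, hj2⟩ := ((hdl i).and (hge i)).exists
    rw [← hj]; exact hc i j hj2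
  · have h2 : ∀ᶠ j in (Filter.hyperfilter ℕ : Filter ℕ), ∀ i ∈ Set.Iic k, c i j = d i :=
      (Filter.eventually_all_finite (Set.finite_Iic k)).2 fun i _ => hdl i
    obtain ⟨j, hj1, hj2⟩ := (h2.and (hge k)).exists
    exact ⟨j, hj2, fun i hi => hj1 i hi⟩

theorem reg_of {Ω : Type} {p : ℕ} (hp : p.Prime) (g : Perm Ω) (a : ℕ) (ha : 0 < a)
    (h1 : g ^ p ^ a = 1) (α : Ω) (h2 : (g ^ p ^ (a - 1)) α ≠ α) : Reg g α := by
  intro n hn
  have hit : ∀ n : ℕ, (g : Ω → Ω)^[n] α = (g ^ n) α := fun n => by rw [Perm.iterate_eq_pow]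
  have hper : Function.IsPeriodicPt g (p ^ a) α := by
    show (g : Ω → Ω)^[p ^ a] α = α
    rw [hit, h1]; rfl
  obtain ⟨b, hb, hbq⟩ := (Nat.dvd_prime_pow hp).1 hper.minimalPeriod_dvd
  have hba : b = a := by
    by_contra hne
    have hb' : b ≤ a - 1 := by omega
    have hd : Function.minimalPeriod g α ∣ p ^ (a - 1) := hbq ▸ pow_dvd_pow p hb'
    have h3 : (g : Ω → Ω)^[p ^ (a - 1)] α = α := Function.isPeriodicPt_iff_minimalPeriod_dvd.2 hd
    rw [hit] at h3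
    exact h2 h3
  subst hba
  have h4 : Function.IsPeriodicPt g n α := by
    show (g : Ω → Ω)^[n] α = α
    rw [hit, hn]
  have h5 := h4.minimalPeriod_dvd
  rw [hbq] at h5
  obtain ⟨m, rfl⟩ := h5
  rw [pow_mul, h1, one_pow]

end Pool.Agent.Lib.MP_04dca5_al.Cut
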