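import Pool.Agent.Lib.MP_04dca5_al.Cut.Num

/-!
# JOB Orb: orbit lengths; abelian groups

PROOF.
`pow_fix_of_orbit`: `c` has `p`-power order so the minimal period `q` of `α` under `c` divides `p ^ k`, so
`q = p ^ b` (`Nat.dvd_prime_pow`, `Function.IsPeriodicPt.minimalPeriod_dvd`; `q > 0`). The points
`c^n α`, `n < q`, are different (`Function.iterate_injOn_Iio_minimalPeriod` or similar) and in `O`, so
`q ≤ O.ncard ≤ N`. `b < p ^ b ≤ N ≤ M` (`Nat.lt_pow_self`), so `q ∣ p ^ M` and `(c ^ p ^ M) α = α`.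
`pow_eq_of_class`: by induction on `n`: `(c ^ n) α` is in the class of `α` and equal to `((g ^ m) ^ n) α`;
`c` maps the class of `α` to itself because it is trivial outside the class.
`not_comm`: `Ω` is infinite so there are `x ≠ y`, and `g ∈ G` with `g x = y`, so `g x ≠ x`. For every `z`
there is `h ∈ G` with `h x = z`, `g z = g (h x) = h (g x) ≠ h x = z`. So the support of `g` is `Ω`,
infinite: contradiction to `h.fin`.
`exists_cover`: `F` finite, every point of `F` is in the class of `α` under `t i` for some `i`, `t` is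
monotone: take the maximum (`Set.Finite.induction_on`).
-/

set_option autoImplicit false

namespace Pool.Agent.Lib.MP_04dca5_al.Cut

open Equiv Subgroup

theorem pow_fix_of_orbit {Ω : Type} {p : ℕ} (hp : p.Prime) (c : Perm Ω) (k : ℕ) (hk : c ^ p ^ k = 1)
    (α : Ω) (O : Set Ω) (hO : O.Finite) (hcO : ∀ n : ℕ, (c ^ n) α ∈ O) (M : ℕ) (hM : O.ncard ≤ M) :
    (c ^ p ^ M) α = α := by
  have hit : ∀ n : ℕ, (c : Ω → Ω)^[n] α = (c ^ n) α := fun n => by rw [Perm.iterate_eq_pow]
  have hper : Function.IsPeriodicPt c (p ^ k) α := by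
    show (c : Ω → Ω)^[p ^ k] α = α
    rw [hit, hk]; rfl
  obtain ⟨b, hb, hbq⟩ := (Nat.dvd_prime_pow hp).1 hper.minimalPeriod_dvd
  have hq : Function.minimalPeriod c α ≤ O.ncard := by
    have h1 : (Set.Iio (Function.minimalPeriod c α)).ncard ≤ O.ncard := by
      refine Set.ncard_le_ncard_of_injOn (fun n => (c : Ω → Ω)^[n] α) (fun n _ => ?_)
        Function.iterate_injOn_Iio_minimalPeriod hO
      show (c : Ω → Ω)^[n] α ∈ O
      rw [hit]; exact hcO n
    rw [Set.ncard_eq_toFinset_card'] at h1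
    simpa using h1
  have hbM : b ≤ M := by
    have := Nat.lt_pow_self hp.one_lt (n := b)
    omega
  have hd : Function.minimalPeriod c α ∣ p ^ M := hbq ▸ pow_dvd_pow p hbM
  have h2 := Function.isPeriodicPt_iff_minimalPeriod_dvd.2 hd
  have h3 : (c : Ω → Ω)^[p ^ M] α = α := h2
  rwa [hit] at h3

theorem pow_eq_of_class {Ω : Type} {t : Setoid Ω} (α : Ω) (c g : Perm Ω) (m : ℕ)
    (hc1 : ∀ x, t α x → c x = (g ^ m) x) (hc2 : ∀ x, ¬ t α x → c x = x) (n : ℕ) :
    (c ^ n) α = ((g ^ m) ^ n) α := by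
  have hmaps : ∀ z, t α z → t α (c z) := by
    intro z hz
    by_contra hcz
    have h1 := hc2 _ hcz
    rw [c.injective h1] at hcz
    exact hcz hz
  have hboth : ∀ n : ℕ, (c ^ n) α = ((g ^ m) ^ n) α ∧ t α ((c ^ n) α) := by
    intro n
    induction n with
    | zero => exact ⟨rfl, t.refl' α⟩
    | succ n ih =>
      constructor
      · rw [pow_succ', pow_succ', Perm.mul_apply, Perm.mul_apply, hc1 _ ih.2, ih.1]
      · rw [pow_succ', Perm.mul_apply]
        exact hmaps _ ih.2
  exact (hboth n).1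

theorem not_comm {Ω : Type} {p : ℕ} {G : Subgroup (Perm Ω)} (h : Hyp p G)
    (hcomm : ∀ x ∈ G, ∀ y ∈ G, ∀ z, x (y z) = y (x z)) : False := by
  have := h.inf
  obtain ⟨x, y, hxy⟩ := exists_pair_ne Ω
  obtain ⟨g, hg, hgx⟩ := h.tr x y
  have hall : {z | g z ≠ z} = Set.univ := by
    refine Set.eq_univ_of_forall fun z => ?_
    obtain ⟨k, hk, hkz⟩ := h.tr x z
    show g z ≠ z
    intro h1
    rw [← hkz, hcomm g hg k hk x] at h1
    have h2 := k.injective h1
    exact hxy (h2.symm.trans hgx)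
  have hf := h.fin g hg
  rw [hall] at hf
  exact Set.infinite_univ hf

theorem exists_cover {Ω : Type} (t : ℕ → Setoid Ω) (hmono : Monotone t) (α : Ω)
    (hcov : ∀ z, ∃ i, t i α z) {F : Set Ω} (hF : F.Finite) : ∃ i, ∀ z ∈ F, t i α z := by
  induction F, hF using Set.Finite.induction_on with
  | empty => exact ⟨0, fun z hz => absurd hz (Set.notMem_empty z)⟩
  | insert ha hs ih =>
    rename_i a s
    obtain ⟨i, hi⟩ := ih
    obtain ⟨j, hj⟩ := hcov a
    refine ⟨max i j, fun z hz => ?_⟩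
    rcases hz with rfl | hz
    · exact hmono (le_max_right i j) hj
    · exact hmono (le_max_left i j) (hi z hz)

end Pool.Agent.Lib.MP_04dca5_al.Cut
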