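import Pool.Agent.Lib.MP_04dca5_al.Cut.Chain
import Pool.Agent.Lib.MP_04dca5_al.Cut.Lim2
import Pool.Agent.Lib.MP_04dca5_al.Cut.Orb

/-!
# Main: the cutting theorem
-/

set_option autoImplicit false

namespace Pool.Agent.Lib.MP_04dca5_al.Cut

open Equiv Subgroup

/-- Elements moving a `u`-class have, at their regular points, long powers which can be cut at the
classes of `s`. -/
def LongCut {Ω : Type} (p N : ℕ) (G : Subgroup (Perm Ω)) (s u : Setoid Ω) : Prop :=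
  ∀ g ∈ G, (∃ x, ¬ u x (g x)) → ∀ a, Reg g a → ∃ m : ℕ, (g ^ (m * p ^ N)) a ≠ a ∧
    CutMem G s (g ^ m) a

theorem LongCut.mono {Ω : Type} {p N : ℕ} {G : Subgroup (Perm Ω)} {s u v : Setoid Ω}
    (h : LongCut p N G s u) (huv : u ≤ v) : LongCut p N G s v :=
  fun g hg ⟨x, hx⟩ a ha => h g hg ⟨x, fun hc => hx (huv hc)⟩ a ha

theorem seq_exists {Ω : Type} {p : ℕ} {G : Subgroup (Perm Ω)} (h : Hyp p G)
    (hB : ∀ N r, Good G r → ∃ s u, Good G s ∧ Good G u ∧ r ≤ s ∧ LongCut p N G s u) :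
    ∃ t v : ℕ → Setoid Ω, (∀ i, Good G (t i)) ∧ (∀ i, Good G (v i)) ∧ Monotone t ∧ Monotone v ∧
      ∀ i, LongCut p i G (t i) (v i) := by
  have step : ∀ (i : ℕ) (q : {q : Setoid Ω × Setoid Ω // Good G q.1 ∧ Good G q.2}),
      ∃ q' : {q : Setoid Ω × Setoid Ω // Good G q.1 ∧ Good G q.2},
        q.1.1 ≤ q'.1.1 ∧ q.1.2 ≤ q'.1.2 ∧ LongCut p i G q'.1.1 q'.1.2 := by
    rintro i ⟨⟨a, b⟩, ha, hb⟩
    obtain ⟨s, u, hs, hu, has, hl⟩ := hB i a ha
    obtain ⟨v, hv, hbv, huv⟩ := exists_join h hb hu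
    exact ⟨⟨⟨s, v⟩, hs, hv⟩, has, hbv, hl.mono huv⟩
  choose f hf1 hf2 hf3 using step
  let q0 : {q : Setoid Ω × Setoid Ω // Good G q.1 ∧ Good G q.2} :=
    ⟨⟨⊥, ⊥⟩, good_bot G, good_bot G⟩
  let Q : ℕ → {q : Setoid Ω × Setoid Ω // Good G q.1 ∧ Good G q.2} :=
    fun n => Nat.rec (f 0 q0) (fun i q => f (i + 1) q) n
  have hQ : ∀ i, Q (i + 1) = f (i + 1) (Q i) := fun i => rfl
  refine ⟨fun i => (Q i).1.1, fun i => (Q i).1.2, fun i => (Q i).2.1, fun i => (Q i).2.2,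
    monotone_nat_of_le_succ fun i => ?_, monotone_nat_of_le_succ fun i => ?_, fun i => ?_⟩
  · show (Q i).1.1 ≤ (Q (i + 1)).1.1
    rw [hQ]; exact hf1 _ _
  · show (Q i).1.2 ≤ (Q (i + 1)).1.2
    rw [hQ]; exact hf2 _ _
  · show LongCut p i G (Q i).1.1 (Q i).1.2
    cases i with
    | zero => exact hf3 0 q0
    | succ i => rw [hQ]; exact hf3 _ _

theorem mainB {Ω : Type} {p : ℕ} {G : Subgroup (Perm Ω)} (h : Hyp p G)
    (hB : ∀ N r, Good G r → ∃ s u, Good G s ∧ Good G u ∧ r ≤ s ∧ LongCut p N G s u) : False := by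
  have := h.inf
  obtain ⟨α⟩ : Nonempty Ω := inferInstance
  obtain ⟨t, v, ht, hv, htmono, hvmono, hl⟩ := seq_exists h hB
  have hel : ∀ j, ∃ g ∈ G, (∃ x, ¬ v j x (g x)) ∧ Reg g α := by
    intro j
    obtain ⟨g, hg, hx, hpos, hα⟩ := elements h (v j) (hv j) α
    refine ⟨g, hg, hx, reg_of h.prime g _ hpos ?_ α hα⟩
    ext x
    exact (ex_spec h ⊥ hg x).symm
  choose g hg hmove hreg using hel
  have hcut : ∀ i j, i ≤ j → ∃ (m : ℕ) (c : Perm Ω), (g j ^ (m * p ^ i)) α ≠ α ∧ c ∈ G ∧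
      (∀ x, t i α x → c x = (g j ^ m) x) ∧ (∀ x, ¬ t i α x → c x = x) := by
    intro i j hij
    obtain ⟨m, hm, c, hc, hc1, hc2⟩ := (hl i).mono (hvmono hij) (g j) (hg j) (hmove j) α (hreg j)
    exact ⟨m, c, hm, hc, hc1, hc2⟩
  choose! m c' hm hc'G hc1' hc2' using hcut
  obtain ⟨c, hcG, hc2, hlim⟩ := limit2 t ht α c' hc'G hc2'
  -- the groups generated by tails
  have hle : ∀ i, closure {y | ∃ j, i ≤ j ∧ y = c j} ≤ G := by
    intro i
    rw [closure_le]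
    rintro _ ⟨j, _, rfl⟩
    exact hcG j
  have horb : ∀ i, closure {y | ∃ j, i ≤ j ∧ y = c j} = G := by
    intro i0
    by_contra hne
    have hfin := h.bt _ (hle i0) hne α
    set O := {y | ∃ x ∈ closure {y | ∃ j, i0 ≤ j ∧ y = c j}, x α = y} with hO
    set i := max i0 O.ncard with hi
    obtain ⟨j, hj, hcj⟩ := hlim i
    have hci := hcj i le_rfl
    obtain ⟨k, hk⟩ := h.pg (c i) (hcG i)
    have hcimem : c i ∈ closure {y | ∃ j, i0 ≤ j ∧ y = c j} :=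
      Subgroup.subset_closure ⟨i, le_max_left _ _, rfl⟩
    have hpow := pow_fix_of_orbit h.prime (c i) k hk α O hfin (fun n => ⟨c i ^ n,
      Subgroup.pow_mem _ hcimem n, rfl⟩) i (le_max_right _ _)
    rw [← hci, pow_eq_of_class (t := t i) α (c' i j) (g j) (m i j) (hc1' i j hj) (hc2' i j hj),
      ← pow_mul] at hpow
    exact hm i j hj hpow
  have hcov : ∀ z, ∃ i, t i α z := by
    intro z
    by_contra hno
    push Not at hno
    obtain ⟨y, hy⟩ := exists_ne z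
    obtain ⟨x, hx, hxz⟩ := h.tr z y
    rw [← horb 0] at hx
    have hfix : ∀ x ∈ closure {y | ∃ j, 0 ≤ j ∧ y = c j}, x z = z := by
      intro x hx
      induction hx using closure_induction with
      | mem x hx =>
        obtain ⟨j, _, rfl⟩ := hx
        exact hc2 j z (hno j)
      | one => rfl
      | mul x y _ _ h1 h2 => rw [Perm.mul_apply, h2, h1]
      | inv x _ h1 => rw [Perm.inv_eq_iff_eq, h1]
    exact hy (hxz.symm.trans (hfix x hx))
  refine not_comm h (fun x hx y hy z => ?_)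
  obtain ⟨i, hi⟩ := exists_cover t htmono α hcov
    (((h.fin x hx).union (h.fin y hy)).union (Set.finite_singleton z))
  have hz : t i α z := hi z (Or.inr rfl)
  have hmaps : ∀ x : Perm Ω, (∀ z, x z ≠ z → t i α z) → ∀ z, t i α z → t i α (x z) := by
    intro x hx z hz
    by_cases hxz : x (x z) = x z
    · rw [x.injective hxz]; exact hz
    · exact hx _ hxz
  have hxm := hmaps x (fun z hz => hi z (Or.inl (Or.inl hz)))
  have hym := hmaps y (fun z hz => hi z (Or.inl (Or.inr hz)))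
  have hx' := hx
  have hy' := hy
  rw [← horb i] at hx' hy'
  obtain ⟨k1, hk1⟩ := mem_closure_range_le c i x hx'
  obtain ⟨k2, hk2⟩ := mem_closure_range_le c i y hy'
  have hx3 := hk1 (max k1 k2) (le_max_left _ _)
  have hy3 := hk2 (max k1 k2) (le_max_right _ _)
  obtain ⟨j, hj, hcj⟩ := hlim (max k1 k2)
  have hc1 : ∀ l, l ≤ max k1 k2 → ∀ x, t l α x → c l x = (g j ^ m l j) x := by
    intro l hl x hx
    rw [← hcj l hl]
    exact hc1' l j (hl.trans hj) x hx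
  obtain ⟨n, hn⟩ := seqB t ht htmono α (g j) (hg j) (max k1 k2) c (fun l => m l j)
    (fun i _ => hcG i) hc1 (fun i _ => hc2 i) i x hx3 ⟨z, hz, hxm z hz⟩
  obtain ⟨n', hm'⟩ := seqB t ht htmono α (g j) (hg j) (max k1 k2) c (fun l => m l j)
    (fun i _ => hcG i) hc1 (fun i _ => hc2 i) i y hy3 ⟨z, hz, hym z hz⟩
  rw [hn _ (hym z hz), hm' _ (hxm z hz), hm' z hz, hn z hz, ← Perm.mul_apply, ← Perm.mul_apply,
    ← zpow_add, ← zpow_add, add_comm]

/-- A chain of congruences, each deep over the previous one. -/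
theorem deep_chain {Ω : Type} {p : ℕ} {G : Subgroup (Perm Ω)} (h : Hyp p G) {r : Setoid Ω}
    (hr : Good G r) (K : ℕ) : ∃ R : ℕ → Setoid Ω, R 0 = ⊥ ∧ (∀ i, Good G (R i)) ∧ Monotone R ∧
      (∀ i, Deep G (R i) (R (i + 1))) ∧ r ≤ R (K + 1) := by
  have step : ∀ q : {q : Setoid Ω // Good G q}, ∃ q' : {q : Setoid Ω // Good G q},
      q.1 ≤ q'.1 ∧ Deep G q.1 q'.1 ∧ r ≤ q'.1 := by
    rintro ⟨q, hq⟩
    obtain ⟨s₀, hs₀, hqs, hd⟩ := exists_deep h hq
    obtain ⟨v, hv, h1, h2⟩ := exists_join h hs₀ hr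
    exact ⟨⟨v, hv⟩, hqs.trans h1, hd v hv h1, h2⟩
  choose f hf1 hf2 hf3 using step
  let Q : ℕ → {q : Setoid Ω // Good G q} := fun n => Nat.rec ⟨⊥, good_bot G⟩ (fun _ q => f q) n
  have hQ : ∀ i, Q (i + 1) = f (Q i) := fun i => rfl
  refine ⟨fun i => (Q i).1, rfl, fun i => (Q i).2, monotone_nat_of_le_succ fun i => ?_,
    fun i => ?_, ?_⟩
  · show (Q i).1 ≤ (Q (i + 1)).1
    rw [hQ]; exact hf1 _
  · show Deep G (Q i).1 (Q (i + 1)).1
    rw [hQ]; exact hf2 _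
  · show r ≤ (Q (K + 1)).1
    rw [hQ]; exact hf3 _

theorem mainA {Ω : Type} {p : ℕ} {G : Subgroup (Perm Ω)} (h : Hyp p G) (e : ℕ)
    (hA : ∀ r, Good G r → ∃ s, Good G s ∧ r ≤ s ∧
      ∀ g ∈ G, (∀ x, r x (g x)) → ∀ a, Reg g a → CutMem G s (g ^ p ^ e) a) : False := by
  refine mainB h (fun N r hr => ?_)
  obtain ⟨R, hR0, hR, hmono, hdeep, hrR⟩ := deep_chain h hr (e + N)
  obtain ⟨s, hs, hRs, hcut⟩ := hA _ (hR (e + N + 1))
  refine ⟨s, R (e + N + 1), hs, hR _, hrR.trans hRs, ?_⟩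
  rintro g hg ⟨x, hx⟩ a ha
  have hchain := ex_chain h R hR hmono hdeep hg hx (e + N + 1) le_rfl
  rw [hR0] at hchain
  set b := ex p (R (e + N + 1)) g with hb
  refine ⟨p ^ (b + e), ?_, ?_⟩
  · intro hfix
    have h1 := ha _ hfix
    rw [← pow_add] at h1
    obtain ⟨y, hy⟩ := ex_bot (p := p) g (b + e + N) (by omega)
    exact hy (by rw [h1]; rfl)
  · have h1 := hcut (g ^ p ^ b) (G.pow_mem hg _) (fun x => ex_spec h _ hg x) a ?_
    · rwa [← pow_mul, ← pow_add] at h1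
    · intro n hn
      rw [← pow_mul] at hn ⊢
      exact ha _ hn

end Pool.Agent.Lib.MP_04dca5_al.Cut
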