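import Pool.Agent.Lib.MP_04dca5_al.Cut.Seq

/-!
# Application of the key lemma to elements commuting with returns
-/

set_option autoImplicit false

namespace Pool.Agent.Lib.MP_04dca5_al.Cut

open Equiv Subgroup

/-- `c` commutes on the `t`-class of `a` with all powers of `g` which preserve this class. -/
def ComRet {Ω : Type} (t : Setoid Ω) (g c : Perm Ω) (a : Ω) : Prop :=
  ∀ n : ℤ, t a ((g ^ n) a) → ∀ z, t a z → c ((g ^ n) z) = (g ^ n) (c z)

/-- The auxiliary subgroup for `seqC`. -/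
def seqR {Ω : Type} (G : Subgroup (Perm Ω)) (t : Setoid Ω) (α : Ω) (g : Perm Ω) :
    Subgroup (Perm Ω) where
  carrier := {x | x ∈ G ∧ (∀ z, t α z → t α (x z)) ∧ (∀ z, t α z → t α (x⁻¹ z)) ∧ ComRet t g x α}
  one_mem' := by
    refine ⟨G.one_mem, fun z hz => hz, fun z hz => ?_, fun n _ z _ => rfl⟩
    rw [inv_one]; exact hz
  mul_mem' := by
    rintro x y ⟨hx1, hx2, hx3, hx4⟩ ⟨hy1, hy2, hy3, hy4⟩
    refine ⟨G.mul_mem hx1 hy1, fun z hz => hx2 _ (hy2 _ hz), fun z hz => ?_, fun n hn z hz => ?_⟩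
    · rw [mul_inv_rev]
      exact hy3 _ (hx3 _ hz)
    · rw [Perm.mul_apply, Perm.mul_apply, hy4 n hn z hz, hx4 n hn _ (hy2 z hz)]
  inv_mem' := by
    rintro x ⟨hx1, hx2, hx3, hx4⟩
    refine ⟨G.inv_mem hx1, hx3, fun z hz => ?_, fun n hn z hz => ?_⟩
    · rw [inv_inv]; exact hx2 z hz
    · rw [Perm.inv_eq_iff_eq, hx4 n hn _ (hx3 z hz), seq_ai]

theorem seqC_all {Ω : Type} {G : Subgroup (Perm Ω)} (t : ℕ → Setoid Ω) (ht : ∀ i, Good G (t i))
    (hmono : Monotone t) (α : Ω) (g : Perm Ω) (hg : g ∈ G) (k : ℕ) (c : ℕ → Perm Ω)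
    (hc : ∀ i, i ≤ k → c i ∈ G) (hc1 : ∀ i, i ≤ k → ComRet (t i) g (c i) α)
    (hc2 : ∀ i, i ≤ k → ∀ x, ¬ t i α x → c i x = x) (d : ℕ) :
    ∀ i, k + 1 - i ≤ d → ∀ x : Perm Ω, x ∈ closure {y | ∃ j, i ≤ j ∧ j ≤ k ∧ y = c j} →
      (∃ z, t i α z ∧ t i α (x z)) → ComRet (t i) g x α := by
  have htriv : ∀ i, k < i → ∀ x : Perm Ω, x ∈ closure {y | ∃ j, i ≤ j ∧ j ≤ k ∧ y = c j} →
      (∃ z, t i α z ∧ t i α (x z)) → ComRet (t i) g x α := by
    intro i hik x hx _ n _ z _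
    rw [seq_bot c hik hx]; rfl
  induction d with
  | zero =>
    intro i hi
    exact htriv i (by omega)
  | succ d ih =>
    intro i hi
    by_cases hik : k < i
    · exact htriv i hik
    push Not at hik
    have hA := ih (i + 1) (by omega)
    have hTG : closure {y | ∃ j, i + 1 ≤ j ∧ j ≤ k ∧ y = c j} ≤ G := by
      rw [closure_le]
      rintro y ⟨j, -, hj, rfl⟩
      exact hc j hj
    intro x hx hz
    have hD : ∀ x, x ∉ {z | t i α z} → c i x = x := fun x hx => hc2 i hik x hx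
    have hle : t i ≤ t (i + 1) := hmono (Nat.le_succ i)
    have hk := key {z | t i α z} G (closure {y | ∃ j, i + 1 ≤ j ∧ j ≤ k ∧ y = c j})
      (seqR G (t i) α g) hTG (c i) (hc i hik) ?_ ?_ hD ?_ ?_ x (seq_le c i k hx) hz
    · exact hk.2.2.2
    · rintro a ha ⟨z, hz1, hz2⟩
      obtain ⟨c1, c2⟩ := seq_cls (ht i) α (hTG ha) ⟨z, hz1, hz2⟩
      have hn := hA a ha ⟨z, hle hz1, hle hz2⟩
      exact ⟨hTG ha, c1, c2, fun n hn1 z' hz' => hn n (hle hn1) z' (hle hz')⟩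
    · exact ⟨hc i hik, fun z hz => seq_maps hD z hz, fun z hz => seq_maps (seq_inv hD) z hz,
        hc1 i hik⟩
    · intro y hy hfix
      refine ⟨hy, fun z hz => ?_, fun z hz => ?_, fun n hn z hz => ?_⟩
      · rw [hfix z hz]; exact hz
      · have : y⁻¹ z = z := by rw [Perm.inv_eq_iff_eq]; exact (hfix z hz).symm
        rw [this]; exact hz
      · have h1 : t i α ((g ^ n) z) :=
          (t i).trans' hn ((ht i).inv _ (G.zpow_mem hg n) _ _ hz)
        rw [hfix z hz, hfix _ h1]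
    · intro y hy
      exact hy.2.1

end Pool.Agent.Lib.MP_04dca5_al.Cut
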