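import Pool.Agent.Lib.MP_04dca5_al.Cut.Chain
import Pool.Agent.Lib.MP_04dca5_al.Cut.Lim2
import Pool.Agent.Lib.MP_04dca5_al.Cut.Orb
import Pool.Agent.Lib.MP_04dca5_al.Cut.SeqC

/-!
# Main: the centraliser theorem
-/

set_option autoImplicit false

namespace Pool.Agent.Lib.MP_04dca5_al.Cut

open Equiv Subgroup

/-- There is an element of `G` supported in the `s`-class of `a`, moving the `r`-class of `a` and
commuting on the `s`-class of `a` with the powers of `g` which preserve it. -/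
def CC {Ω : Type} (G : Subgroup (Perm Ω)) (r s : Setoid Ω) (g : Perm Ω) (a : Ω) : Prop :=
  ∃ c ∈ G, (∀ x, ¬ s a x → c x = x) ∧ ¬ r a (c a) ∧ ComRet s g c a

theorem conj_zpow2 {Ω : Type} (g h : Perm Ω) (n : ℤ) : (h⁻¹ * g * h) ^ n = h⁻¹ * g ^ n * h := by
  have h1 := conj_zpow (a := h⁻¹) (b := g) (i := n)
  rwa [inv_inv] at h1

theorem CC.conj {Ω : Type} {G : Subgroup (Perm Ω)} {r s : Setoid Ω} (hr : Good G r)
    (hs : Good G s) {g h : Perm Ω} (hh : h ∈ G) {a b : Ω} (hab : h a = b)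
    (hc : CC G r s g b) : CC G r s (h⁻¹ * g * h) a := by
  obtain ⟨c, hcG, h1, h2, h3⟩ := hc
  refine ⟨h⁻¹ * c * h, G.mul_mem (G.mul_mem (G.inv_mem hh) hcG) hh, ?_, ?_, ?_⟩
  · intro x hx
    have hx' : ¬ s b (h x) := by
      rw [← hab, hs.inv_iff hh]; exact hx
    rw [Perm.mul_apply, Perm.mul_apply, h1 _ hx', seq_ia]
  · intro hcon
    apply h2
    have h4 := hr.inv h hh _ _ hcon
    rw [Perm.mul_apply, Perm.mul_apply, seq_ai, hab] at h4
    exact h4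
  · intro n hn z hz
    rw [conj_zpow2] at hn ⊢
    have hn' : s b ((g ^ n) b) := by
      have h4 := hs.inv h hh _ _ hn
      rwa [Perm.mul_apply, Perm.mul_apply, seq_ai, hab] at h4
    have hz' : s b (h z) := by
      rw [← hab]; exact hs.inv h hh _ _ hz
    simp only [Perm.mul_apply, seq_ai]
    rw [h3 n hn' _ hz']

/-- `LC 𝒢 G r s u`: the elements of `𝒢` which move a `u`-class have centralising elements. -/
def LC {Ω : Type} (𝒢 : Set (Perm Ω × Ω)) (G : Subgroup (Perm Ω)) (r s u : Setoid Ω) : Prop :=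
  ∀ q ∈ 𝒢, q.1 ∈ G → ¬ u q.2 (q.1 q.2) → CC G r s q.1 q.2

theorem LC.mono {Ω : Type} {𝒢 : Set (Perm Ω × Ω)} {G : Subgroup (Perm Ω)} {r r' s u v : Setoid Ω}
    (h : LC 𝒢 G r s u) (hr : r' ≤ r) (huv : u ≤ v) : LC 𝒢 G r' s v := by
  intro q hq hqG hqv
  obtain ⟨c, hc, h1, h2, h3⟩ := h q hq hqG (fun h' => hqv (huv h'))
  exact ⟨c, hc, h1, fun h' => h2 (hr h'), h3⟩

theorem seq_existsC {Ω : Type} {p : ℕ} {G : Subgroup (Perm Ω)} (h : Hyp p G)
    (𝒢 : Set (Perm Ω × Ω))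
    (hC : ∀ r, Good G r → ∃ s u, Good G s ∧ Good G u ∧ r ≤ s ∧ LC 𝒢 G r s u) :
    ∃ t v : ℕ → Setoid Ω, (∀ i, Good G (t i)) ∧ (∀ i, Good G (v i)) ∧ Monotone t ∧ Monotone v ∧
      (∀ i, Deep G (t i) (t (i + 1))) ∧ (∀ i, t i ≤ v i) ∧
      ∀ i, LC 𝒢 G (t i) (t (i + 1)) (v (i + 1)) := by
  have step : ∀ (q : {q : Setoid Ω × Setoid Ω // Good G q.1 ∧ Good G q.2}),
      ∃ q' : {q : Setoid Ω × Setoid Ω // Good G q.1 ∧ Good G q.2},
        q.1.1 ≤ q'.1.1 ∧ q.1.2 ≤ q'.1.2 ∧ Deep G q.1.1 q'.1.1 ∧ q'.1.1 ≤ q'.1.2 ∧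
        LC 𝒢 G q.1.1 q'.1.1 q'.1.2 := by
    rintro ⟨⟨a, b⟩, ha, hb⟩
    obtain ⟨s₀, hs₀, has₀, hd⟩ := exists_deep h ha
    obtain ⟨s, u, hs, hu, hs₀s, hl⟩ := hC s₀ hs₀
    obtain ⟨v, hv, hbv, huv⟩ := exists_join h hb hu
    obtain ⟨w, hw, hvw, hsw⟩ := exists_join h hv hs
    exact ⟨⟨⟨s, w⟩, hs, hw⟩, has₀.trans hs₀s, hbv.trans hvw, hd s hs hs₀s, hsw,
      hl.mono has₀ (huv.trans hvw)⟩
  choose f hf1 hf2 hf3 hf4 hf5 using step
  let q0 : {q : Setoid Ω × Setoid Ω // Good G q.1 ∧ Good G q.2} :=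
    ⟨⟨⊥, ⊥⟩, good_bot G, good_bot G⟩
  let Q : ℕ → {q : Setoid Ω × Setoid Ω // Good G q.1 ∧ Good G q.2} :=
    fun n => Nat.rec q0 (fun _ q => f q) n
  have hQ : ∀ i, Q (i + 1) = f (Q i) := fun i => rfl
  refine ⟨fun i => (Q i).1.1, fun i => (Q i).1.2, fun i => (Q i).2.1, fun i => (Q i).2.2,
    monotone_nat_of_le_succ fun i => ?_, monotone_nat_of_le_succ fun i => ?_, fun i => ?_,
    fun i => ?_, fun i => ?_⟩
  · show (Q i).1.1 ≤ (Q (i + 1)).1.1
    rw [hQ]; exact hf1 _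
  · show (Q i).1.2 ≤ (Q (i + 1)).1.2
    rw [hQ]; exact hf2 _
  · show Deep G (Q i).1.1 (Q (i + 1)).1.1
    rw [hQ]; exact hf3 _
  · show (Q i).1.1 ≤ (Q i).1.2
    cases i with
    | zero => exact le_rfl
    | succ i => rw [hQ]; exact hf4 _
  · show LC 𝒢 G (Q i).1.1 (Q (i + 1)).1.1 (Q (i + 1)).1.2
    rw [hQ]; exact hf5 _

theorem mainC {Ω : Type} {p : ℕ} {G : Subgroup (Perm Ω)} (h : Hyp p G)
    (𝒢 : Set (Perm Ω × Ω)) (h𝒢 : ∀ u, Good G u → ∃ q ∈ 𝒢, q.1 ∈ G ∧ ¬ u q.2 (q.1 q.2))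
    (hC : ∀ r, Good G r → ∃ s u, Good G s ∧ Good G u ∧ r ≤ s ∧ LC 𝒢 G r s u) : False := by
  have := h.inf
  obtain ⟨α⟩ : Nonempty Ω := inferInstance
  obtain ⟨t, v, ht, hv, htmono, hvmono, hdeep, htv, hl⟩ := seq_existsC h 𝒢 hC
  have hel : ∀ j, ∃ g ∈ G, ¬ v j α (g α) ∧ ∀ i, i + 1 ≤ j → CC G (t i) (t (i + 1)) g α := by
    intro j
    obtain ⟨⟨g, b⟩, hq, hg, hmv⟩ := h𝒢 (v j) (hv j)
    obtain ⟨k, hk, hkb⟩ := h.tr α b
    refine ⟨k⁻¹ * g * k, G.mul_mem (G.mul_mem (G.inv_mem hk) hg) hk, ?_, ?_⟩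
    · intro hcon
      apply hmv
      have h4 := (hv j).inv k hk _ _ hcon
      rw [Perm.mul_apply, Perm.mul_apply, seq_ai, hkb] at h4
      exact h4
    · intro i hi
      exact CC.conj (ht i) (ht (i + 1)) hk hkb
        (hl i _ hq hg (fun h' => hmv (hvmono hi h')))
  choose g hg hmove hCC using hel
  have hcut : ∀ i j, i ≤ j → ∃ c : Perm Ω, c ∈ G ∧ (∀ x, ¬ t (i + 1) α x → c x = x) ∧
      ¬ t i α (c α) ∧ ComRet (t (i + 1)) (g (j + 1)) c α := by
    intro i j hij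
    obtain ⟨c, hc, h1, h2, h3⟩ := hCC (j + 1) i (by omega)
    exact ⟨c, hc, h1, h2, h3⟩
  choose! c' hc'G hc2' hc3' hc1' using hcut
  obtain ⟨c, hcG, hc2, hlim⟩ := limit2 (fun i => t (i + 1)) (fun i => ht (i + 1)) α c' hc'G hc2'
  have hTmono : Monotone (fun i => t (i + 1)) := fun a b hab => htmono (by omega)
  -- the groups generated by tails
  have hle : ∀ i, closure {y | ∃ j, i ≤ j ∧ y = c j} ≤ G := by
    intro i
    rw [closure_le]
    rintro _ ⟨j, _, rfl⟩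
    exact hcG j
  have hcmv : ∀ i, ¬ t i α (c i α) := by
    intro i
    obtain ⟨j, hj, hcj⟩ := hlim i
    rw [← hcj i le_rfl]
    exact hc3' i j hj
  have hcin : ∀ i z, t (i + 1) α z → t (i + 1) α (c i z) := fun i z hz =>
    seq_maps (D := {z | t (i + 1) α z}) (hc2 i) z hz
  have horb : ∀ i, closure {y | ∃ j, i ≤ j ∧ y = c j} = G := by
    intro i0
    by_contra hne
    have hfin := h.bt _ (hle i0) hne α
    refine Set.infinite_of_injective_forall_mem (f := fun i => c (i0 + i) α) ?_ ?_ hfin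
    · have hlt : ∀ a b, a < b → c (i0 + a) α ≠ c (i0 + b) α := by
        intro a b hab heq
        apply hcmv (i0 + b)
        rw [← heq]
        exact htmono (show i0 + a + 1 ≤ i0 + b by omega)
          (hcin (i0 + a) α ((t (i0 + a + 1)).refl' α))
      intro a b hab
      rcases lt_trichotomy a b with h1 | h1 | h1
      · exact absurd hab (hlt a b h1)
      · exact h1
      · exact absurd hab.symm (hlt b a h1)
    · intro i
      exact ⟨c (i0 + i), Subgroup.subset_closure ⟨i0 + i, by omega, rfl⟩, rfl⟩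
  have hcov : ∀ z, ∃ i, t (i + 1) α z := by
    intro z
    by_contra hno
    push Not at hno
    obtain ⟨y, hy⟩ := exists_ne z
    obtain ⟨x, hx, hxz⟩ := h.tr z y
    rw [← horb 0] at hx
    have hfix : ∀ x ∈ closure {y | ∃ j, 0 ≤ j ∧ y = c j}, x z = z := by
      intro x hx
      induction hx using closure_induction with
      | mem x hx =>
        obtain ⟨j, _, rfl⟩ := hx
        exact hc2 j z (hno j)
      | one => rfl
      | mul x y _ _ h1 h2 => rw [Perm.mul_apply, h2, h1]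
      | inv x _ h1 => rw [Perm.inv_eq_iff_eq, h1]
    exact hy (hxz.symm.trans (hfix x hx))
  -- a nontrivial element
  obtain ⟨y, hy⟩ := exists_ne α
  obtain ⟨x, hx, hxα⟩ := h.tr α y
  obtain ⟨i, hi⟩ := exists_cover (fun i => t (i + 1)) hTmono α hcov (h.fin x hx)
  have hiα : t (i + 1) α α := (t (i + 1)).refl' α
  -- elements moving the points of the class to `α`
  have htoα : ∀ w, ∃ y ∈ G, y w = α := fun w => h.tr w α
  choose Y hYG hYα using htoα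
  have hall : ∀ z ∈ G, ∃ k, ∀ k' ≥ k, z ∈ closure {y | ∃ j, i + 1 ≤ j ∧ j ≤ k' ∧ y = c j} := by
    intro z hz
    rw [← horb (i + 1)] at hz
    exact mem_closure_range_le c (i + 1) z hz
  obtain ⟨k0, hk0⟩ := hall x hx
  have hYk : ∀ w, ∃ k, ∀ k' ≥ k, Y w ∈ closure {y | ∃ j, i + 1 ≤ j ∧ j ≤ k' ∧ y = c j} :=
    fun w => hall (Y w) (hYG w)
  choose K hK using hYk
  obtain ⟨B, hB⟩ := (((ht (i + 2)).fc α).image K).bddAbove
  set k := max (i + 1) (max k0 B) with hk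
  have hk1 : i + 1 ≤ k := le_max_left _ _
  have hxk := hk0 k ((le_max_left k0 B).trans (le_max_right _ _))
  have hYk : ∀ w, t (i + 2) α w → Y w ∈ closure {y | ∃ j, i + 1 ≤ j ∧ j ≤ k ∧ y = c j} := by
    intro w hw
    have h1 : K w ≤ B := hB ⟨w, hw, rfl⟩
    exact hK w k (h1.trans ((le_max_right k0 B).trans (le_max_right _ _)))
  obtain ⟨j, hj, hcj⟩ := hlim k
  have hc1 : ∀ l, l ≤ k → ComRet (t (l + 1)) (g (j + 1)) (c l) α := by
    intro l hl
    rw [← hcj l hl]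
    exact hc1' l j (hl.trans hj)
  have hcom := seqC_all (fun i => t (i + 1)) (fun i => ht (i + 1)) hTmono α (g (j + 1))
    (hg (j + 1)) k c (fun i _ => hcG i) hc1 (fun i _ => hc2 i) (k + 1 - (i + 1)) (i + 1) le_rfl
  -- a return which moves a class
  have hmv : ¬ t (i + 2) α (g (j + 1) α) := by
    intro hcon
    apply hmove (j + 1)
    exact htv _ (htmono (show i + 2 ≤ j + 1 by omega) hcon)
  obtain ⟨n, hn1, z, hz, hz2⟩ := hdeep (i + 1) (g (j + 1)) (hg (j + 1)) α hmv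
  have hαn : ¬ t (i + 1) α ((g (j + 1) ^ n) α) := by
    intro hcon
    apply hz2
    have h1 := hcom (Y z) (hYk z hz) ⟨z, hz, by rw [hYα z]⟩ n hn1 z hz
    rw [hYα z] at h1
    rw [← (ht (i + 1)).inv_iff (hYG z), h1, hYα z]
    exact hcon
  have hxα2 : t (i + 2) α (x α) := by
    have h1 : t (i + 1) α (x α) := by
      refine hi (x α) ?_
      show x (x α) ≠ x α
      intro h2
      have h3 := x.injective h2
      rw [hxα] at h3
      exact hy h3
    exact htmono (Nat.le_succ (i + 1)) h1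
  have h1 := hcom x hxk ⟨α, (t (i + 2)).refl' α, hxα2⟩ n hn1 α ((t (i + 2)).refl' α)
  have h2 : x ((g (j + 1) ^ n) α) = (g (j + 1) ^ n) α := by
    by_contra h3
    exact hαn (hi _ h3)
  rw [h2] at h1
  have h3 := (g (j + 1) ^ n).injective h1
  rw [hxα] at h3
  exact hy h3.symm

end Pool.Agent.Lib.MP_04dca5_al.Cut
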