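import Pool.Agent.Lib.MP_04dca5_al.Cut.Fin

/-!
# JOB Sup: no maximal subgroups; finitely many elements never complete a proper subgroup

PROOF.
`no_coatom`: suppose `K` is a coatom of `Subgroup G`. Every element of `↥G` satisfies `g ^ p ^ k = 1`
and finitely generated subgroups of `↥G` are finite (map them into `Perm Ω` by `G.subtype`:
`MonoidHom.map_closure`, `closure_finite`, `h.fin`). So `commutator G ≤ K` (`coatom_commutator`), hence
`K` is normal (`Subgroup.Normal` because `⁅K, ⊤⁆ ≤ commutator ≤ K`: for `k ∈ K`, `g`,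
`g k g⁻¹ = ⁅g,k⁆ k ∈ K`). Choose `f ∉ K`. `zpowers f ⊔ K = ⊤`, so every element is `f ^ i * k` with
`i : ℤ`, `k ∈ K` (`Subgroup.mem_sup` of a normal subgroup, `Subgroup.mul_normal`), and
`{f ^ i | i : ℤ}` is finite as `f` has finite order. The image `K'` of `K` in `Perm Ω` is a proper
subgroup of `G` so its orbit `O` of a point `x` is finite (`h.bt`), and the orbit of `x` under `G`,
which is `Ω` by `h.tr`, is the union of the finitely many finite sets `f ^ i '' O`: contradiction with
`Infinite Ω`.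

`sup_ne`: it is enough to treat `F = {f}` (then induction on the finite set `F`,
`M ⊔ closure (insert f F) = (M ⊔ closure F) ⊔ closure {f}`; `M ⊔ closure F ≤ G`).
For one element: suppose `M ⊔ closure {f} = G`, `M ≠ G`. Then `f ∉ M` (otherwise the join is `M`).
Work in `Subgroup ↥G` (`M.subgroupOf G`, `⟨f, _⟩`) or directly: by Zorn there is a subgroup `K` with
`M ≤ K ≤ G`, maximal with `f ∉ K` (`zorn_le_nonempty₀`, union of a chain of subgroups:
`Subgroup.mem_sSup_of_directedOn`). `K` is a coatom of `Subgroup ↥G`: if `K < L` then `f ∈ L` so `L`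
contains `M` and `f`, `L = ⊤`. Contradiction with `no_coatom`.
-/

set_option autoImplicit false

namespace Pool.Agent.Lib.MP_04dca5_al.Cut

open Equiv Subgroup

theorem no_coatom {Ω : Type} {p : ℕ} {G : Subgroup (Perm Ω)} (h : Hyp p G) (K : Subgroup G) :
    ¬ IsCoatom K := by
  intro hK
  have hpg : ∀ g : G, ∃ k, g ^ p ^ k = 1 := fun g => by
    obtain ⟨k, hk⟩ := h.pg g g.2
    exact ⟨k, Subtype.ext (by simpa using hk)⟩
  have hfg : ∀ F : Set G, F.Finite → ((closure F : Subgroup G) : Set G).Finite := by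
    intro F hF
    have h1 : ((closure (G.subtype '' F) : Subgroup (Perm Ω)) : Set (Perm Ω)).Finite :=
      closure_finite _ (hF.image _) (by rintro _ ⟨g, _, rfl⟩; exact h.fin g g.2)
    rw [← MonoidHom.map_closure, Subgroup.coe_map] at h1
    exact Set.Finite.of_finite_image h1 (Subtype.val_injective.injOn)
  have hc : commutator G ≤ K := coatom_commutator p h.prime hpg hfg K hK
  have hn : K.Normal := by
    refine ⟨fun k hk g => ?_⟩
    have h1 : g * k * g⁻¹ * k⁻¹ ∈ K := hc (Subgroup.commutator_mem_commutator (mem_top g) (mem_top k))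
    have h2 : g * k * g⁻¹ = g * k * g⁻¹ * k⁻¹ * k := by group
    rw [h2]
    exact K.mul_mem h1 hk
  obtain ⟨f, hf⟩ : ∃ f, f ∉ K := by
    by_contra hcon
    push Not at hcon
    exact hK.1 (eq_top_iff.mpr fun x _ => hcon x)
  have htop : zpowers f ⊔ K = ⊤ := by
    refine hK.2 _ (lt_of_le_of_ne le_sup_right ?_)
    intro heq
    apply hf
    rw [heq]
    exact (le_sup_left : zpowers f ≤ zpowers f ⊔ K) (mem_zpowers f)
  obtain ⟨x⟩ : Nonempty Ω := by
    have := h.inf
    infer_instance
  have hK' : K.map G.subtype ≤ G := by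
    rintro _ ⟨k, _, rfl⟩
    exact k.2
  have hKne : K.map G.subtype ≠ G := by
    intro heq
    have h1 : (f : Perm Ω) ∈ K.map G.subtype := by rw [heq]; exact f.2
    obtain ⟨k, hk, hkf⟩ := h1
    apply hf
    have h2 : k = f := Subtype.ext hkf
    rw [← h2]
    exact hk
  have hO := h.bt _ hK' hKne x
  have hZ : ((zpowers f : Subgroup G) : Set G).Finite := by
    rw [zpowers_eq_closure]
    exact hfg _ (Set.finite_singleton f)
  have hU : (Set.univ : Set Ω) ⊆ ⋃ u ∈ ((zpowers f : Subgroup G) : Set G),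
      (fun z : Ω => (u : Perm Ω) z) '' {y | ∃ h ∈ K.map G.subtype, h x = y} := by
    intro y _
    obtain ⟨g, hg, hgy⟩ := h.tr x y
    have h1 : (⟨g, hg⟩ : G) ∈ zpowers f ⊔ K := by rw [htop]; exact mem_top _
    rw [Subgroup.mem_sup_of_normal_right] at h1
    obtain ⟨u, hu, k, hk, huk⟩ := h1
    simp only [Set.mem_iUnion]
    refine ⟨u, hu, (k : Perm Ω) x, ⟨(k : Perm Ω), ⟨k, hk, rfl⟩, rfl⟩, ?_⟩
    have h2 : (u : Perm Ω) * (k : Perm Ω) = g := congrArg Subtype.val huk
    show (u : Perm Ω) ((k : Perm Ω) x) = y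
    rw [← Perm.mul_apply, h2, hgy]
  have hfin : (Set.univ : Set Ω).Finite :=
    (hZ.biUnion fun u _ => hO.image _).subset hU
  have := h.inf
  exact Set.infinite_univ hfin

private theorem sup_one {Ω : Type} {p : ℕ} {G : Subgroup (Perm Ω)} (h : Hyp p G) (M : Subgroup (Perm Ω))
    (hM : M ≤ G) (hne : M ≠ G) (f : Perm Ω) (hf : f ∈ G) : M ⊔ closure {f} ≠ G := by
  intro hsup
  have hfM : f ∉ M := by
    intro hfM
    apply hne
    rw [← hsup]
    symm
    rw [sup_eq_left, closure_le]
    simpa using hfM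
  obtain ⟨K, hMK, hK⟩ := zorn_le_nonempty₀ {K : Subgroup G | (⟨f, hf⟩ : G) ∉ K} (by
    intro c hcs hc y hy
    refine ⟨sSup c, ?_, fun z hz => le_sSup hz⟩
    intro hmem
    rw [Subgroup.mem_sSup_of_directedOn ⟨y, hy⟩ hc.directedOn] at hmem
    obtain ⟨s, hs, hfs⟩ := hmem
    exact hcs hs hfs) (M.subgroupOf G) (by
    intro hmem
    exact hfM (by simpa [Subgroup.mem_subgroupOf] using hmem))
  refine no_coatom h K ⟨?_, ?_⟩
  · intro heq
    exact hK.1 (by rw [heq]; exact mem_top _)
  · intro L hL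
    have hfL : (⟨f, hf⟩ : G) ∈ L := by
      by_contra hcon
      exact hL.not_ge (hK.2 hcon hL.le)
    have h1 : G ≤ L.map G.subtype := by
      refine hsup.ge.trans ?_
      rw [sup_le_iff, closure_le]
      constructor
      · intro m hm
        refine ⟨⟨m, hM hm⟩, hL.le (hMK ?_), rfl⟩
        simpa [Subgroup.mem_subgroupOf] using hm
      · rintro _ rfl
        exact ⟨⟨_, hf⟩, hfL, rfl⟩
    rw [eq_top_iff]
    intro g _
    obtain ⟨l, hl, hlg⟩ := h1 g.2
    have h2 : l = g := Subtype.ext hlg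
    rw [← h2]
    exact hl

theorem sup_ne {Ω : Type} {p : ℕ} {G : Subgroup (Perm Ω)} (h : Hyp p G) (M : Subgroup (Perm Ω))
    (hM : M ≤ G) (hne : M ≠ G) (F : Set (Perm Ω)) (hF : F.Finite) (hFG : ∀ g ∈ F, g ∈ G) :
    M ⊔ closure F ≠ G := by
  induction F, hF using Set.Finite.induction_on with
  | empty =>
    rw [Subgroup.closure_empty, sup_bot_eq]
    exact hne
  | @insert a s _ _ ih =>
    have ih' := ih fun g hg => hFG g (Set.mem_insert_of_mem _ hg)
    have hle : M ⊔ closure s ≤ G := by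
      rw [sup_le_iff, closure_le]
      exact ⟨hM, fun g hg => hFG g (Set.mem_insert_of_mem _ hg)⟩
    have h1 : M ⊔ closure (insert a s) = (M ⊔ closure s) ⊔ closure {a} := by
      rw [Set.insert_eq, Subgroup.closure_union, sup_comm (closure {a}), sup_assoc]
    rw [h1]
    exact sup_one h _ hle ih' a (hFG a (Set.mem_insert _ _))

end Pool.Agent.Lib.MP_04dca5_al.Cut
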